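import Mathlib

/-! Gliding hump for sequences of finitely supported functionals on Lipschitz functions. -/

open Filter Topology

namespace Pool.Agent.Helper81.FreeL1

/-- `f` is Lipschitz with constant `L`. -/
def Lip {X : Type*} [SeminormedAddCommGroup X] (L : ℝ) (f : X → ℝ) : Prop :=
  ∀ x y, |f x - f y| ≤ L * ‖x - y‖

/-- A sequence of functionals, each depending on finitely many values only, which is
weakly unconditionally Cauchy against Lipschitz functions. -/
structure Sys (X : Type*) [SeminormedAddCommGroup X] where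
  b : ℕ → (X → ℝ) →ₗ[ℝ] ℝ
  E : ℕ → Finset X
  V : ℕ → ℝ
  B : ℝ
  V_nonneg : ∀ k, 0 ≤ V k
  B_nonneg : 0 ≤ B
  small : ∀ k (f : X → ℝ) (δ : ℝ), 0 ≤ δ → (∀ x ∈ E k, |f x| ≤ δ) → |b k f| ≤ V k * δ
  upper : ∀ (T : Finset ℕ) (L : ℝ) (f : X → ℝ), 0 ≤ L → Lip L f → ∑ k ∈ T, |b k f| ≤ B * L

section

variable {X : Type*} [SeminormedAddCommGroup X] (S : Sys X)

lemma Sys.congr (k : ℕ) (f g : X → ℝ) (h : ∀ x ∈ S.E k, f x = g x) : S.b k f = S.b k g := by
  have := S.small k (f - g) 0 le_rfl (by
    intro x hx
    simp [h x hx])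
  rw [mul_zero, map_sub] at this
  have h2 := abs_nonpos_iff.mp this
  linarith

lemma Sys.eq_zero (k : ℕ) (f : X → ℝ) (h : ∀ x ∈ S.E k, f x = 0) : S.b k f = 0 := by
  have := S.small k f 0 le_rfl (by
    intro x hx
    simp [h x hx])
  rw [mul_zero] at this
  exact abs_nonpos_iff.mp this

lemma Sys.one (k : ℕ) (L : ℝ) (f : X → ℝ) (hL : 0 ≤ L) (hf : Lip L f) : |S.b k f| ≤ S.B * L := by
  simpa using S.upper {k} L f hL hf

/-- The disjoint gliding hump argument. -/
theorem ghd (𝒜 : Set (Set X)) (L c : ℝ) (hL : 0 ≤ L) (hc : 0 < c) (hne : 𝒜.Nonempty)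
    (H : ∀ M : ℕ, ∀ A ∈ 𝒜, ∃ T : Finset ℕ, (∀ k ∈ T, M ≤ k) ∧ ∃ h : X → ℝ, Lip L h ∧
      (∀ x ∈ A, h x = 0) ∧ ∃ A' ∈ 𝒜, A ⊆ A' ∧ (∀ x, x ∉ A' → h x = 0) ∧
      c ≤ |∑ k ∈ T, S.b k h|) : False := by
  have key : ∀ N : ℕ, ∃ (T : Finset ℕ) (σ : ℕ → ℝ) (F : X → ℝ), ∃ A ∈ 𝒜,
      (∀ k, |σ k| ≤ 1) ∧ (∀ x, x ∉ A → F x = 0) ∧ (∀ x y, F y = 0 → |F x| ≤ L * ‖x - y‖) ∧
      Lip (2 * L) F ∧ N * c ≤ ∑ k ∈ T, σ k * S.b k F := by
    intro N
    induction N with
    | zero =>
      obtain ⟨A, hA⟩ := hne
      refine ⟨∅, fun _ => 0, fun _ => 0, A, hA, by simp, by simp, ?_, ?_, by simp⟩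
      · intro x y _
        simpa using mul_nonneg hL (norm_nonneg (x - y))
      · intro x y
        simpa using mul_nonneg (mul_nonneg zero_le_two hL) (norm_nonneg (x - y))
    | succ N ih =>
      obtain ⟨T, σ, F, A, hA, hσ, h0, h1, h2, h3⟩ := ih
      obtain ⟨T', hT', h, hh, hhA, A', hA', hAA, hh', hc'⟩ := H (T.sup id + 1) A hA
      have hdisj : Disjoint T T' := by
        rw [Finset.disjoint_left]
        intro k hk hk'
        have e1 := hT' k hk'
        have e2 : k ≤ T.sup id := Finset.le_sup (f := id) hk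
        omega
      -- signs
      obtain ⟨s, τ, hs, hτ, hst⟩ : ∃ s τ : ℝ, (s = 1 ∨ s = -1) ∧ (τ = 1 ∨ τ = -1) ∧
          c ≤ s * ∑ k ∈ T, σ k * S.b k h + τ * ∑ k ∈ T', S.b k F + s * τ * ∑ k ∈ T', S.b k h := by
        set x := ∑ k ∈ T, σ k * S.b k h
        set y := ∑ k ∈ T', S.b k F
        set v := ∑ k ∈ T', S.b k h
        rcases le_total 0 v with hv | hv
        · rw [abs_of_nonneg hv] at hc'
          rcases le_total 0 (x + y) with hxy | hxy
          · exact ⟨1, 1, Or.inl rfl, Or.inl rfl, by linarith⟩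
          · exact ⟨-1, -1, Or.inr rfl, Or.inr rfl, by linarith⟩
        · rw [abs_of_nonpos hv] at hc'
          rcases le_total 0 (x - y) with hxy | hxy
          · exact ⟨1, -1, Or.inl rfl, Or.inr rfl, by linarith⟩
          · exact ⟨-1, 1, Or.inr rfl, Or.inl rfl, by linarith⟩
      have hs1 : |s| = 1 := by rcases hs with rfl | rfl <;> simp
      have hs0 : s ≠ 0 := by rcases hs with rfl | rfl <;> simp
      have hτ1 : |τ| = 1 := by rcases hτ with rfl | rfl <;> simp
      classical
      refine ⟨T ∪ T', fun k => if k ∈ T then σ k else τ, F + s • h, A', hA', ?_, ?_, ?_, ?_, ?_⟩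
      · intro k
        by_cases hk : k ∈ T
        · simpa [hk] using hσ k
        · simp [hk, hτ1]
      · intro x hx
        have : x ∉ A := fun h => hx (hAA h)
        simp [h0 x this, hh' x hx]
      · intro x y hy
        have hdis : ∀ z, F z = 0 ∨ h z = 0 := fun z => by
          by_cases hz : z ∈ A
          · exact Or.inr (hhA z hz)
          · exact Or.inl (h0 z hz)
        simp only [Pi.add_apply, Pi.smul_apply, smul_eq_mul] at hy ⊢
        have hy0 : F y = 0 ∧ h y = 0 := by
          rcases hdis y with h' | h'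
          · refine ⟨h', ?_⟩
            rw [h', zero_add] at hy
            exact (mul_eq_zero.mp hy).resolve_left hs0
          · refine ⟨?_, h'⟩
            rw [h', mul_zero, add_zero] at hy
            exact hy
        rcases hdis x with h' | h'
        · rw [h', zero_add, abs_mul, hs1, one_mul]
          have := hh x y
          rwa [hy0.2, sub_zero] at this
        · rw [h', mul_zero, add_zero]
          exact h1 x y hy0.1
      · intro x y
        simp only [Pi.add_apply, Pi.smul_apply, smul_eq_mul]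
        have hn := norm_nonneg (x - y)
        have hLn : 0 ≤ L * ‖x - y‖ := mul_nonneg hL hn
        by_cases hx : x ∈ A
        · have ex := hhA x hx
          by_cases hy : y ∈ A
          · have ey := hhA y hy
            rw [ex, ey]; simpa using h2 x y
          · have ey := h0 y hy
            have e1 := h1 x y ey
            have e2 := hh x y
            rw [ex, zero_sub, abs_neg] at e2
            rw [ex, ey, mul_zero, add_zero, zero_add]
            calc |F x - s * h y| ≤ |F x| + |s * h y| := abs_sub _ _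
              _ = |F x| + |h y| := by rw [abs_mul, hs1, one_mul]
              _ ≤ 2 * L * ‖x - y‖ := by linarith
        · have ex := h0 x hx
          by_cases hy : y ∈ A
          · have ey := hhA y hy
            have e1 := h1 y x ex
            have e2 := hh x y
            rw [ey, sub_zero] at e2
            rw [norm_sub_rev] at e1
            rw [ex, ey, mul_zero, add_zero, zero_add]
            calc |s * h x - F y| ≤ |s * h x| + |F y| := abs_sub _ _
              _ = |h x| + |F y| := by rw [abs_mul, hs1, one_mul]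
              _ ≤ 2 * L * ‖x - y‖ := by linarith
          · have ey := h0 y hy
            rw [ex, ey, zero_add, zero_add, ← mul_sub, abs_mul, hs1, one_mul]
            have := hh x y
            linarith
      · rw [Finset.sum_union hdisj]
        have e1 : ∑ k ∈ T, (if k ∈ T then σ k else τ) * S.b k (F + s • h) =
            ∑ k ∈ T, σ k * S.b k F + s * ∑ k ∈ T, σ k * S.b k h := by
          rw [Finset.mul_sum, ← Finset.sum_add_distrib]
          refine Finset.sum_congr rfl fun k hk => ?_
          rw [if_pos hk, map_add, map_smul, smul_eq_mul]; ring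
        have e2 : ∑ k ∈ T', (if k ∈ T then σ k else τ) * S.b k (F + s • h) =
            τ * ∑ k ∈ T', S.b k F + s * τ * ∑ k ∈ T', S.b k h := by
          rw [Finset.mul_sum, Finset.mul_sum, ← Finset.sum_add_distrib]
          refine Finset.sum_congr rfl fun k hk => ?_
          have : k ∉ T := fun h' => Finset.disjoint_left.mp hdisj h' hk
          rw [if_neg this, map_add, map_smul, smul_eq_mul]; ring
        rw [e1, e2]
        push_cast
        linarith
  obtain ⟨N, hN⟩ := exists_nat_gt (S.B * (2 * L) / c)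
  obtain ⟨T, σ, F, A, hA, hσ, h0, h1, h2, h3⟩ := key N
  have e1 := S.upper T (2 * L) F (by linarith) h2
  have e2 : ∑ k ∈ T, σ k * S.b k F ≤ ∑ k ∈ T, |S.b k F| := by
    refine Finset.sum_le_sum fun k _ => ?_
    calc σ k * S.b k F ≤ |σ k * S.b k F| := le_abs_self _
      _ = |σ k| * |S.b k F| := abs_mul _ _
      _ ≤ 1 * |S.b k F| := mul_le_mul_of_nonneg_right (hσ k) (abs_nonneg _)
      _ = |S.b k F| := one_mul _
  rw [div_lt_iff₀ hc] at hN
  linarith

end

end Pool.Agent.Helper81.FreeL1
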