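import Pool.Agent.Helper81.FreeL1.F9

/-! Assembly. -/

open Filter Topology

namespace Pool.Agent.Helper81.FreeL1

section

variable {X : Type*} [NormedAddCommGroup X]

/-- the functional of a molecule, corrected to vanish on constants -/
noncomputable def mol (μ : X →₀ ℝ) : (X → ℝ) →ₗ[ℝ] ℝ where
  toFun f := μ.sum (fun x c => c * (f x - f 0))
  map_add' f g := by
    rw [← Finsupp.sum_add]
    refine Finsupp.sum_congr fun x _ => ?_
    simp only [Pi.add_apply]; ring
  map_smul' a f := by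
    rw [RingHom.id_apply, smul_eq_mul, Finsupp.mul_sum]
    refine Finsupp.sum_congr fun x _ => ?_
    simp only [Pi.smul_apply, smul_eq_mul]; ring

lemma mol_apply (μ : X →₀ ℝ) (f : X → ℝ) : mol μ f = μ.sum (fun x c => c * (f x - f 0)) := rfl

lemma mol_small (μ : X →₀ ℝ) [DecidableEq X] (f : X → ℝ) (δ : ℝ)
    (h : ∀ x ∈ insert 0 μ.support, |f x| ≤ δ) : |mol μ f| ≤ (2 * ∑ x ∈ μ.support, |μ x|) * δ := by
  rw [mol_apply, Finsupp.sum]
  refine (Finset.abs_sum_le_sum_abs _ _).trans ?_
  rw [Finset.mul_sum, Finset.sum_mul]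
  refine Finset.sum_le_sum fun x hx => ?_
  rw [abs_mul]
  have h1 := h x (Finset.mem_insert_of_mem hx)
  have h2 := h 0 (Finset.mem_insert_self _ _)
  have h3 := abs_sub (f x) (f 0)
  have h4 := abs_nonneg (μ x)
  nlinarith

theorem exists_sys (μ : ℕ → (X →₀ ℝ)) (a b : ℝ)
    (h : ∀ t : ℕ →₀ ℝ,
      (∀ f : X → ℝ, LipschitzWith 1 f → f 0 = 0 →
        |t.sum (fun n s => s * (μ n).sum (fun x c => c * f x))| ≤ b * (⨆ n, |t n|)) ∧
      (∃ f : X → ℝ, LipschitzWith 1 f ∧ f 0 = 0 ∧
        a * (⨆ n, |t n|) ≤ |t.sum (fun n s => s * (μ n).sum (fun x c => c * f x))|)) (ha : 0 < a) :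
    ∃ S : Sys X, ∀ k, ∃ f : X → ℝ, Lip 1 f ∧ f 0 = 0 ∧ a ≤ |S.b k f| := by
  classical
  have hbdd : ∀ t : ℕ →₀ ℝ, BddAbove (Set.range fun n => |t n|) := by
    intro t
    refine ⟨∑ k ∈ t.support, |t k|, ?_⟩
    rintro _ ⟨n, rfl⟩
    by_cases hn : n ∈ t.support
    · exact Finset.single_le_sum (f := fun k => |t k|) (fun _ _ => abs_nonneg _) hn
    · rw [Finsupp.notMem_support_iff] at hn
      simp only [hn, abs_zero]
      exact Finset.sum_nonneg fun _ _ => abs_nonneg _
  have hup : ∀ (T : Finset ℕ) (L : ℝ) (f : X → ℝ), 0 ≤ L → Lip L f → ∑ k ∈ T, |mol (μ k) f| ≤ |b| * L := by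
    intro T L f hL hf
    rcases hL.eq_or_lt with rfl | hL
    · have : ∀ k ∈ T, |mol (μ k) f| = 0 := by
        intro k _
        rw [abs_eq_zero, mol_apply]
        refine Finset.sum_eq_zero fun x _ => ?_
        have := hf x 0
        rw [zero_mul] at this
        show μ k x * (f x - f 0) = 0
        rw [abs_nonpos_iff.mp this, mul_zero]
      rw [Finset.sum_eq_zero this, mul_zero]
    · set f' : X → ℝ := fun x => (f x - f 0) / L with hf'
      have h1 : LipschitzWith 1 f' := by
        refine LipschitzWith.of_dist_le_mul fun x y => ?_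
        rw [Real.dist_eq, dist_eq_norm, NNReal.coe_one, one_mul]
        have e1 : f' x - f' y = (f x - f y) / L := by simp only [hf']; ring
        rw [e1, abs_div, abs_of_pos hL, div_le_iff₀ hL, mul_comm]
        exact hf x y
      have h2 : f' 0 = 0 := by simp [hf']
      have h3 : ∀ k, (μ k).sum (fun x c => c * f' x) = mol (μ k) f / L := by
        intro k
        rw [mol_apply, Finsupp.sum, Finsupp.sum, Finset.sum_div]
        refine Finset.sum_congr rfl fun x _ => ?_
        simp only [hf']; ring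
      set t : ℕ →₀ ℝ := Finsupp.onFinset T (fun k => if k ∈ T then (if 0 ≤ mol (μ k) f then 1 else -1) else 0)
        (fun k hk => by
          by_contra hkT
          simp [hkT] at hk) with ht
      have h4 := (h t).1 f' h1 h2
      have h5 : t.sum (fun n s => s * (μ n).sum (fun x c => c * f' x)) = (∑ k ∈ T, |mol (μ k) f|) / L := by
        rw [ht, Finsupp.onFinset_sum _ (fun k => by simp), Finset.sum_div]
        refine Finset.sum_congr rfl fun k hk => ?_
        rw [if_pos hk, h3]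
        split_ifs with h0
        · rw [abs_of_nonneg h0]; ring
        · rw [abs_of_neg (not_le.mp h0)]; ring
      have h6 : (⨆ n, |t n|) ≤ 1 := by
        refine ciSup_le fun n => ?_
        simp only [ht, Finsupp.onFinset_apply]
        split_ifs <;> simp
      have h7 : 0 ≤ ⨆ n, |t n| := (abs_nonneg (t 0)).trans (le_ciSup (hbdd t) 0)
      rw [h5] at h4
      have h8 : (∑ k ∈ T, |mol (μ k) f|) / L ≤ |b| := by
        refine (le_abs_self _).trans (h4.trans ?_)
        have := le_abs_self b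
        have := abs_nonneg b
        nlinarith
      rwa [div_le_iff₀ hL] at h8
  refine ⟨⟨fun k => mol (μ k), fun k => insert 0 (μ k).support, fun k => 2 * ∑ x ∈ (μ k).support, |μ k x|, |b|,
    fun k => mul_nonneg zero_le_two (Finset.sum_nonneg fun _ _ => abs_nonneg _), abs_nonneg _,
    fun k f δ _ hf => mol_small (μ k) f δ hf, hup⟩, ?_⟩
  intro k
  obtain ⟨f, hf1, hf2, hf3⟩ := (h (Finsupp.single k 1)).2
  refine ⟨f, ?_, hf2, ?_⟩
  · intro x y
    have := hf1.dist_le_mul x y
    simpa [Real.dist_eq, dist_eq_norm] using this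
  · have e1 : 1 ≤ ⨆ n, |(Finsupp.single k (1 : ℝ)) n| := by
      have := le_ciSup (hbdd (Finsupp.single k 1)) k
      simpa using this
    have e2 : (Finsupp.single k (1 : ℝ)).sum (fun n s => s * (μ n).sum (fun x c => c * f x)) = mol (μ k) f := by
      rw [Finsupp.sum_single_index (by simp), one_mul, mol_apply]
      refine Finsupp.sum_congr fun x _ => ?_
      rw [hf2, sub_zero]
    rw [e2] at hf3
    show a ≤ |mol (μ k) f|
    have : a * 1 ≤ a * (⨆ n, |(Finsupp.single k (1 : ℝ)) n|) := mul_le_mul_of_nonneg_left e1 ha.le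
    linarith

variable [NormedSpace ℝ X]

theorem no_c0 (c : Coord X) (μ : ℕ → (X →₀ ℝ)) (a b : ℝ) (ha : 0 < a)
    (h : ∀ t : ℕ →₀ ℝ,
      (∀ f : X → ℝ, LipschitzWith 1 f → f 0 = 0 →
        |t.sum (fun n s => s * (μ n).sum (fun x c => c * f x))| ≤ b * (⨆ n, |t n|)) ∧
      (∃ f : X → ℝ, LipschitzWith 1 f ∧ f 0 = 0 ∧
        a * (⨆ n, |t n|) ≤ |t.sum (fun n s => s * (μ n).sum (fun x c => c * f x))|)) : False := by
  obtain ⟨S, hS⟩ := exists_sys μ a b h ha
  obtain ⟨R, hR, hw⟩ := bounded_witness S a ha hS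
  obtain ⟨S', hS'⟩ := selection S c a ha R hR hw
  exact contradiction S' c ha hS'

end

/-- the coordinates of `ℓ₁` -/
noncomputable def coordL1 : Coord (lp (fun _ : ℕ => ℝ) 1) where
  e j := lp.single 1 j (1 : ℝ)
  co i := lp.evalCLM ℝ (fun _ : ℕ => ℝ) 1 i
  co_e i j := by
    show (lp.single 1 j (1 : ℝ) : ∀ _ : ℕ, ℝ) i = _
    rw [lp.single_apply]
    by_cases h : i = j
    · subst h; simp
    · simp [h]
  norm_e j := by
    rw [lp.norm_single (by norm_num)]
    simp
  bound φ C h x := by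
    have h1 := (lp.hasSum_single (p := 1) (by norm_num) x)
    have h2 := h1.mapL φ
    have h3 : HasSum (fun i : ℕ => ‖x i‖) ‖x‖ := by
      have := lp.hasSum_norm (p := 1) (by norm_num) x
      simpa using this
    have h4 : ∀ i, ‖φ (lp.single 1 i (x i))‖ ≤ C * ‖x i‖ := by
      intro i
      have e1 : lp.single 1 i (x i) = (x i) • (lp.single 1 i (1 : ℝ) : lp (fun _ : ℕ => ℝ) 1) := by
        rw [← lp.single_smul, smul_eq_mul, mul_one]
      rw [e1, map_smul, norm_smul, mul_comm]
      exact mul_le_mul_of_nonneg_right (h i) (norm_nonneg _)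
    have h5 := h3.mul_left C
    rw [← Real.norm_eq_abs, ← h2.tsum_eq]
    exact tsum_of_norm_bounded h5 h4
  sum_le x m := by
    have h3 : HasSum (fun i : ℕ => ‖x i‖) ‖x‖ := by
      have := lp.hasSum_norm (p := 1) (by norm_num) x
      simpa using this
    have e : ∑ j ∈ Finset.range m, |lp.evalCLM ℝ (fun _ : ℕ => ℝ) 1 j x| = ∑ j ∈ Finset.range m, ‖x j‖ := rfl
    rw [e]
    exact sum_le_hasSum _ (fun _ _ => norm_nonneg _) h3
  sum_lim x ε hε := by
    have h3 : HasSum (fun i : ℕ => ‖x i‖) ‖x‖ := by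
      have := lp.hasSum_norm (p := 1) (by norm_num) x
      simpa using this
    have h4 := h3.tendsto_sum_nat
    have h5 := h4.eventually_const_lt (show ‖x‖ - ε < ‖x‖ by linarith)
    obtain ⟨m₀, hm₀⟩ := eventually_atTop.mp h5
    refine ⟨m₀, fun m hm => ?_⟩
    have := hm₀ m hm
    have e : ∑ j ∈ Finset.range m, |lp.evalCLM ℝ (fun _ : ℕ => ℝ) 1 j x| = ∑ j ∈ Finset.range m, ‖x j‖ := rfl
    rw [e]
    linarith

end Pool.Agent.Helper81.FreeL1
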