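import Pool.Agent.Helper81.FreeL1.F1

/-! Reduction to uniformly bounded test functions. -/

open Filter Topology

namespace Pool.Agent.Helper81.FreeL1

/-- truncation -/
noncomputable def clamp (R t : ℝ) : ℝ := max (-R) (min R t)

lemma clamp_aux {R s t : ℝ} (h : s ≤ t) : 0 ≤ clamp R t - clamp R s ∧ clamp R t - clamp R s ≤ t - s := by
  unfold clamp
  constructor
  · have := max_le_max (le_refl (-R)) (min_le_min (le_refl R) h)
    linarith
  · rcases le_total R t with h1 | h1 <;> rcases le_total R s with h2 | h2 <;>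
      simp only [min_eq_left, min_eq_right, h1, h2] <;>
      rcases le_total (-R) t with h3 | h3 <;> rcases le_total (-R) s with h4 | h4 <;>
      rcases le_total (-R) R with h5 | h5 <;>
      simp only [max_eq_left, max_eq_right, h3, h4, h5] <;> linarith

lemma clamp_lip (R s t : ℝ) : |clamp R s - clamp R t| ≤ |s - t| := by
  rcases le_total s t with h | h
  · have := clamp_aux (R := R) h
    rw [abs_sub_comm, abs_of_nonneg this.1, abs_sub_comm, abs_of_nonneg (by linarith)]
    exact this.2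
  · have := clamp_aux (R := R) h
    rw [abs_of_nonneg this.1, abs_of_nonneg (by linarith)]
    exact this.2

lemma sub_clamp_lip (R s t : ℝ) : |(s - clamp R s) - (t - clamp R t)| ≤ |s - t| := by
  rcases le_total s t with h | h
  · have := clamp_aux (R := R) h
    rw [abs_of_nonpos (by linarith), abs_of_nonpos (by linarith)]
    linarith
  · have := clamp_aux (R := R) h
    rw [abs_of_nonneg (by linarith), abs_of_nonneg (by linarith)]
    linarith

lemma unit_aux {s t : ℝ} (h : s ≤ t) :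
    0 ≤ max 0 (min 1 t) - max 0 (min 1 s) ∧ max 0 (min 1 t) - max 0 (min 1 s) ≤ t - s := by
  constructor
  · have := max_le_max (le_refl (0 : ℝ)) (min_le_min (le_refl (1 : ℝ)) h)
    linarith
  · rcases le_total 1 t with h1 | h1 <;> rcases le_total 1 s with h2 | h2 <;>
      simp only [min_eq_left, min_eq_right, h1, h2] <;>
      rcases le_total 0 t with h3 | h3 <;> rcases le_total 0 s with h4 | h4 <;>
      rcases le_total (0 : ℝ) 1 with h5 | h5 <;>
      simp only [max_eq_left, max_eq_right, h3, h4, h5] <;> linarith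

lemma unit_lip (s t : ℝ) : |max 0 (min 1 s) - max 0 (min 1 t)| ≤ |s - t| := by
  rcases le_total s t with h | h
  · have := unit_aux h
    rw [abs_sub_comm, abs_of_nonneg this.1, abs_sub_comm, abs_of_nonneg (by linarith)]
    exact this.2
  · have := unit_aux h
    rw [abs_of_nonneg this.1, abs_of_nonneg (by linarith)]
    exact this.2

lemma clamp_abs_le {R : ℝ} (hR : 0 ≤ R) (t : ℝ) : |clamp R t| ≤ R := by
  unfold clamp
  rw [abs_le]
  exact ⟨le_max_left _ _, max_le (by linarith) (min_le_left _ _)⟩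

lemma clamp_eq {R t : ℝ} (h : |t| ≤ R) : clamp R t = t := by
  rw [abs_le] at h
  unfold clamp
  rw [min_eq_right h.2, max_eq_right h.1]

lemma clamp_zero {R : ℝ} (hR : 0 ≤ R) : clamp R 0 = 0 := clamp_eq (by simpa using hR)

lemma Lip.nonneg_mono {X : Type*} [SeminormedAddCommGroup X] {L L' : ℝ} {f : X → ℝ} (h : Lip L f) (hL : L ≤ L') :
    Lip L' f := fun x y => (h x y).trans (mul_le_mul_of_nonneg_right hL (norm_nonneg _))

theorem bounded_witness {X : Type*} [SeminormedAddCommGroup X] (S : Sys X) (a : ℝ) (ha : 0 < a)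
    (h : ∀ k, ∃ f : X → ℝ, Lip 1 f ∧ f 0 = 0 ∧ a ≤ |S.b k f|) :
    ∃ R : ℝ, 0 < R ∧ ∀ M : ℕ, ∃ k, M ≤ k ∧ ∃ F : X → ℝ, Lip 1 F ∧ (∀ x, |F x| ≤ R) ∧ a / 2 ≤ |S.b k F| := by
  by_contra hcon
  push Not at hcon
  refine ghd S {A | ∃ r : ℝ, 0 < r ∧ A = {x | ‖x‖ ≤ r}} 3 (a / 2) (by norm_num) (by linarith)
    ⟨_, 1, one_pos, rfl⟩ ?_
  rintro M _ ⟨r, hr, rfl⟩
  obtain ⟨M', hM'⟩ := hcon r hr
  set k := max M M'
  obtain ⟨f, hf, hf0, hfa⟩ := h k
  have hk1 : M ≤ k := le_max_left _ _
  have hk2 := hM' k (le_max_right _ _) (fun x => clamp r (f x))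
    (fun x y => (clamp_lip _ _ _).trans (hf x y)) (fun x => clamp_abs_le hr.le _)
  set e : X → ℝ := fun x => f x - clamp r (f x) with he
  have hfx : ∀ x, |f x| ≤ ‖x‖ := fun x => by simpa [hf0] using hf x 0
  have he1 : Lip 1 e := fun x y => (sub_clamp_lip _ _ _).trans (hf x y)
  have he2 : ∀ x, ‖x‖ ≤ r → e x = 0 := fun x hx => by
    simp only [he]
    rw [clamp_eq ((hfx x).trans hx), sub_self]
  have he3 : ∀ x, |e x| ≤ ‖x‖ := fun x => by
    have := he1 x 0
    rw [he2 0 (by simpa using hr.le)] at this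
    simpa using this
  have he4 : a / 2 ≤ |S.b k e| := by
    have e1 : S.b k e = S.b k f - S.b k (fun x => clamp r (f x)) := by
      rw [← map_sub]; rfl
    rw [e1]
    have := abs_sub_abs_le_abs_sub (S.b k f) (S.b k (fun x => clamp r (f x)))
    linarith
  -- cut off at infinity
  obtain ⟨R', hR', hRE⟩ : ∃ R' : ℝ, r ≤ R' ∧ ∀ x ∈ S.E k, ‖x‖ ≤ R' := by
    refine ⟨r + ∑ x ∈ S.E k, ‖x‖, ?_, ?_⟩
    · have : 0 ≤ ∑ x ∈ S.E k, ‖x‖ := Finset.sum_nonneg fun _ _ => norm_nonneg _
      linarith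
    · intro x hx
      have : ‖x‖ ≤ ∑ x ∈ S.E k, ‖x‖ := Finset.single_le_sum (f := fun x => ‖x‖) (fun _ _ => norm_nonneg _) hx
      linarith
  have hR0 : 0 < R' := lt_of_lt_of_le hr hR'
  set χ : X → ℝ := fun x => max 0 (min 1 (2 - ‖x‖ / R')) with hχ
  have hχ0 : ∀ x, 0 ≤ χ x := fun x => le_max_left _ _
  have hχ1 : ∀ x, χ x ≤ 1 := fun x => max_le zero_le_one (min_le_left _ _)
  have hχL : ∀ x y, |χ x - χ y| ≤ ‖x - y‖ / R' := by
    intro x y
    have e1 : |χ x - χ y| ≤ |(2 - ‖x‖ / R') - (2 - ‖y‖ / R')| := unit_lip _ _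
    refine e1.trans ?_
    have : (2 - ‖x‖ / R') - (2 - ‖y‖ / R') = (‖y‖ - ‖x‖) / R' := by ring
    rw [this, abs_div, abs_of_pos hR0]
    gcongr
    rw [abs_sub_comm]
    exact abs_norm_sub_norm_le x y
  have hχz : ∀ x, 2 * R' ≤ ‖x‖ → χ x = 0 := by
    intro x hx
    simp only [hχ]
    apply max_eq_left
    refine (min_le_right _ _).trans ?_
    rw [sub_nonpos, le_div_iff₀ hR0]; exact hx
  have hχo : ∀ x, ‖x‖ ≤ R' → χ x = 1 := by
    intro x hx
    simp only [hχ]
    rw [min_eq_left, max_eq_right zero_le_one]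
    have : ‖x‖ / R' ≤ 1 := (div_le_one hR0).mpr hx
    linarith
  have key : ∀ x y, ‖x‖ ≤ ‖y‖ → |χ x * e x - χ y * e y| ≤ 3 * ‖x - y‖ := by
    intro x y hxy
    rcases le_total (2 * R') ‖x‖ with hx | hx
    · rw [hχz x hx, hχz y (hx.trans hxy)]
      simp
    · have e1 : χ x * e x - χ y * e y = (χ x - χ y) * e x + χ y * (e x - e y) := by ring
      rw [e1]
      calc |(χ x - χ y) * e x + χ y * (e x - e y)| ≤ |(χ x - χ y) * e x| + |χ y * (e x - e y)| := abs_add_le _ _
        _ = |χ x - χ y| * |e x| + |χ y| * |e x - e y| := by rw [abs_mul, abs_mul]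
        _ ≤ ‖x - y‖ / R' * (2 * R') + 1 * (1 * ‖x - y‖) := by
          gcongr
          · exact hχL x y
          · exact (he3 x).trans hx
          · rw [abs_of_nonneg (hχ0 y)]; exact hχ1 y
          · exact he1 x y
        _ = 3 * ‖x - y‖ := by field_simp; ring
  refine ⟨{k}, by simpa using hk1, fun x => χ x * e x, ?_, ?_, {x | ‖x‖ ≤ 2 * R'}, ⟨2 * R', by linarith, rfl⟩, ?_, ?_, ?_⟩
  · intro x y
    rcases le_total ‖x‖ ‖y‖ with hxy | hxy
    · exact key x y hxy
    · have := key y x hxy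
      rwa [abs_sub_comm, norm_sub_rev] at this
  · intro x hx
    simp only [Set.mem_ofPred_eq] at hx
    show χ x * e x = 0
    rw [he2 x hx, mul_zero]
  · intro x hx
    simp only [Set.mem_ofPred_eq] at hx ⊢
    linarith
  · intro x hx
    simp only [Set.mem_ofPred_eq, not_le] at hx
    show χ x * e x = 0
    rw [hχz x hx.le, zero_mul]
  · rw [Finset.sum_singleton]
    have : S.b k (fun x => χ x * e x) = S.b k e := by
      apply S.congr
      intro x hx
      rw [hχo x (hRE x hx), one_mul]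
    rw [this]; exact he4

end Pool.Agent.Helper81.FreeL1
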