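import Pool.Agent.Helper81.FreeL1.F2

/-! Calculus classes. -/

open Filter Topology

namespace Pool.Agent.Helper81.FreeL1

/-- Coordinates behaving as those of `ℓ₁`. -/
structure Coord (W : Type*) [NormedAddCommGroup W] [NormedSpace ℝ W] where
  e : ℕ → W
  co : ℕ → W →L[ℝ] ℝ
  co_e : ∀ i j, co i (e j) = if i = j then 1 else 0
  norm_e : ∀ j, ‖e j‖ ≤ 1
  bound : ∀ (φ : W →L[ℝ] ℝ) (C : ℝ), (∀ j, |φ (e j)| ≤ C) → ∀ x, |φ x| ≤ C * ‖x‖
  sum_le : ∀ x m, ∑ j ∈ Finset.range m, |co j x| ≤ ‖x‖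
  sum_lim : ∀ (x : W) (ε : ℝ), 0 < ε → ∃ m₀, ∀ m, m₀ ≤ m → ‖x‖ ≤ ∑ j ∈ Finset.range m, |co j x| + ε

section

variable {W : Type*} [NormedAddCommGroup W] [NormedSpace ℝ W]

/-- differentiable with bounded derivative -/
def N1 (f : W → ℝ) : Prop := Differentiable ℝ f ∧ ∃ C, 0 ≤ C ∧ ∀ x, ‖fderiv ℝ f x‖ ≤ C

/-- bounded -/
def Bd {α : Type*} (f : α → ℝ) : Prop := ∃ C, 0 ≤ C ∧ ∀ x, |f x| ≤ C

lemma Bd.add {α : Type*} {f g : α → ℝ} (hf : Bd f) (hg : Bd g) : Bd (fun x => f x + g x) := by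
  obtain ⟨C, h0, h⟩ := hf
  obtain ⟨C', h0', h'⟩ := hg
  exact ⟨C + C', by linarith, fun x => (abs_add_le _ _).trans (add_le_add (h x) (h' x))⟩

lemma Bd.mul {α : Type*} {f g : α → ℝ} (hf : Bd f) (hg : Bd g) : Bd (fun x => f x * g x) := by
  obtain ⟨C, h0, h⟩ := hf
  obtain ⟨C', h0', h'⟩ := hg
  refine ⟨C * C', mul_nonneg h0 h0', fun x => ?_⟩
  rw [abs_mul]
  exact mul_le_mul (h x) (h' x) (abs_nonneg _) h0

lemma Bd.const {α : Type*} (a : ℝ) : Bd (fun _ : α => a) := ⟨|a|, abs_nonneg _, fun _ => le_rfl⟩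

lemma Bd.const_mul {α : Type*} {f : α → ℝ} (hf : Bd f) (a : ℝ) : Bd (fun x => a * f x) :=
  (Bd.const a).mul hf

lemma Bd.neg {α : Type*} {f : α → ℝ} (hf : Bd f) : Bd (fun x => - f x) := by
  obtain ⟨C, h0, h⟩ := hf
  exact ⟨C, h0, fun x => by rw [abs_neg]; exact h x⟩

lemma Bd.sub {α : Type*} {f g : α → ℝ} (hf : Bd f) (hg : Bd g) : Bd (fun x => f x - g x) := by
  simpa [sub_eq_add_neg] using hf.add hg.neg

lemma Bd.sum {α ι : Type*} (s : Finset ι) {f : ι → α → ℝ} (hf : ∀ i ∈ s, Bd (f i)) :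
    Bd (fun x => ∑ i ∈ s, f i x) := by
  classical
  induction s using Finset.induction_on with
  | empty => simpa using Bd.const (α := α) 0
  | insert i s hi ih =>
    have h1 := hf i (Finset.mem_insert_self _ _)
    have h2 := ih (fun j hj => hf j (Finset.mem_insert_of_mem hj))
    have := h1.add h2
    simpa [Finset.sum_insert hi] using this

lemma N1.const (a : ℝ) : N1 (fun _ : W => a) := by
  refine ⟨differentiable_const a, 0, le_rfl, fun x => ?_⟩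
  simp

lemma N1.add {f g : W → ℝ} (hf : N1 f) (hg : N1 g) : N1 (fun x => f x + g x) := by
  obtain ⟨h1, C, h0, h⟩ := hf
  obtain ⟨h1', C', h0', h'⟩ := hg
  refine ⟨h1.add h1', C + C', by linarith, fun x => ?_⟩
  rw [fderiv_fun_add (h1 x) (h1' x)]
  exact (norm_add_le _ _).trans (add_le_add (h x) (h' x))

lemma N1.const_mul {f : W → ℝ} (hf : N1 f) (a : ℝ) : N1 (fun x => a * f x) := by
  obtain ⟨h1, C, h0, h⟩ := hf
  refine ⟨h1.const_mul a, |a| * C, by positivity, fun x => ?_⟩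
  rw [fderiv_const_mul (h1 x), norm_smul, Real.norm_eq_abs]
  exact mul_le_mul_of_nonneg_left (h x) (abs_nonneg _)

lemma N1.neg {f : W → ℝ} (hf : N1 f) : N1 (fun x => - f x) := by
  simpa using hf.const_mul (-1)

lemma N1.sub {f g : W → ℝ} (hf : N1 f) (hg : N1 g) : N1 (fun x => f x - g x) := by
  simpa [sub_eq_add_neg] using hf.add hg.neg

lemma N1.sum {ι : Type*} (s : Finset ι) {f : ι → W → ℝ} (hf : ∀ i ∈ s, N1 (f i)) :
    N1 (fun x => ∑ i ∈ s, f i x) := by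
  classical
  induction s using Finset.induction_on with
  | empty => simpa using N1.const (W := W) 0
  | insert i s hi ih =>
    have h1 := hf i (Finset.mem_insert_self _ _)
    have h2 := ih (fun j hj => hf j (Finset.mem_insert_of_mem hj))
    have := h1.add h2
    simpa [Finset.sum_insert hi] using this

lemma fderiv_mul_apply {f g : W → ℝ} {x : W} (hf : DifferentiableAt ℝ f x) (hg : DifferentiableAt ℝ g x) :
    fderiv ℝ (fun x => f x * g x) x = f x • fderiv ℝ g x + g x • fderiv ℝ f x :=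
  (hf.hasFDerivAt.mul hg.hasFDerivAt).fderiv

lemma N1.mul {f g : W → ℝ} (hf : N1 f) (hg : N1 g) (bf : Bd f) (bg : Bd g) : N1 (fun x => f x * g x) := by
  obtain ⟨h1, C, h0, h⟩ := hf
  obtain ⟨h1', C', h0', h'⟩ := hg
  obtain ⟨A, hA0, hA⟩ := bf
  obtain ⟨A', hA0', hA'⟩ := bg
  refine ⟨h1.mul h1', A * C' + A' * C, by positivity, fun x => ?_⟩
  rw [fderiv_mul_apply (h1 x) (h1' x)]
  refine (norm_add_le _ _).trans ?_
  rw [norm_smul, norm_smul, Real.norm_eq_abs, Real.norm_eq_abs]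
  exact add_le_add (mul_le_mul (hA x) (h' x) (norm_nonneg _) hA0)
    (mul_le_mul (hA' x) (h x) (norm_nonneg _) hA0')

lemma fderiv_comp_real {ψ ψ' : ℝ → ℝ} (h : ∀ t, HasDerivAt ψ (ψ' t) t) {f : W → ℝ} {x : W}
    (hf : DifferentiableAt ℝ f x) : HasFDerivAt (fun x => ψ (f x)) (ψ' (f x) • fderiv ℝ f x) x :=
  (h (f x)).comp_hasFDerivAt x hf.hasFDerivAt

lemma N1.comp {ψ ψ' : ℝ → ℝ} (h : ∀ t, HasDerivAt ψ (ψ' t) t) (hb : Bd ψ') {f : W → ℝ}
    (hf : N1 f) : N1 (fun x => ψ (f x)) := by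
  obtain ⟨h1, C, h0, h2⟩ := hf
  obtain ⟨A, hA0, hA⟩ := hb
  refine ⟨fun x => (fderiv_comp_real h (h1 x)).differentiableAt, A * C, by positivity, fun x => ?_⟩
  rw [(fderiv_comp_real h (h1 x)).fderiv, norm_smul, Real.norm_eq_abs]
  exact mul_le_mul (hA _) (h2 x) (norm_nonneg _) hA0

lemma lip_of_fderiv {f : W → ℝ} {C : ℝ} (hf : Differentiable ℝ f) (h : ∀ x, ‖fderiv ℝ f x‖ ≤ C) : Lip C f := by
  intro x y
  have := convex_univ.norm_image_sub_le_of_norm_fderiv_le (𝕜 := ℝ) (f := f) (C := C) (x := y) (y := x)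
    (fun z _ => hf z) (fun z _ => h z) (Set.mem_univ _) (Set.mem_univ _)
  simpa using this

variable (c : Coord W)

/-- partial derivative -/
noncomputable def Coord.D (g : W → ℝ) (j : ℕ) (x : W) : ℝ := fderiv ℝ g x (c.e j)

/-- differentiable with bounded derivative and partial derivatives of the same kind -/
def Coord.N2 (g : W → ℝ) : Prop := N1 g ∧ ∀ j, N1 (c.D g j)

/-- depends on the first `J` coordinates only -/
def Coord.Cyl (J : ℕ) (g : W → ℝ) : Prop := ∀ x y, (∀ i < J, c.co i x = c.co i y) → g x = g y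

lemma Coord.D_abs_le (g : W → ℝ) (j : ℕ) (x : W) : |c.D g j x| ≤ ‖fderiv ℝ g x‖ := by
  unfold Coord.D
  have h1 := (fderiv ℝ g x).le_opNorm (c.e j)
  rw [Real.norm_eq_abs] at h1
  refine h1.trans ?_
  have := mul_le_mul_of_nonneg_left (c.norm_e j) (norm_nonneg (fderiv ℝ g x))
  simpa using this

lemma Coord.norm_fderiv_le (g : W → ℝ) (x : W) {C : ℝ} (h : ∀ j, |c.D g j x| ≤ C) : ‖fderiv ℝ g x‖ ≤ C := by
  refine ContinuousLinearMap.opNorm_le_bound _ ((abs_nonneg _).trans (h 0)) fun y => ?_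
  rw [Real.norm_eq_abs]
  exact c.bound _ C h y

lemma N1.Bd_D {g : W → ℝ} (hg : N1 g) (j : ℕ) : Bd (c.D g j) := by
  obtain ⟨h1, C, h0, h⟩ := hg
  exact ⟨C, h0, fun x => (c.D_abs_le g j x).trans (h x)⟩

lemma Coord.N2.add {c : Coord W} {f g : W → ℝ} (hf : c.N2 f) (hg : c.N2 g) : c.N2 (fun x => f x + g x) := by
  refine ⟨hf.1.add hg.1, fun j => ?_⟩
  have : c.D (fun x => f x + g x) j = fun x => c.D f j x + c.D g j x := by
    funext x
    unfold Coord.D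
    rw [fderiv_fun_add (hf.1.1 x) (hg.1.1 x)]; rfl
  rw [this]
  exact (hf.2 j).add (hg.2 j)

lemma Coord.N2.const {c : Coord W} (a : ℝ) : c.N2 (fun _ => a) := by
  refine ⟨N1.const a, fun j => ?_⟩
  have : c.D (fun _ => a) j = fun _ => 0 := by
    funext x
    unfold Coord.D
    simp
  rw [this]
  exact N1.const 0

lemma Coord.D_const_mul {g : W → ℝ} (hg : Differentiable ℝ g) (a : ℝ) (j : ℕ) (x : W) :
    c.D (fun x => a * g x) j x = a * c.D g j x := by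
  unfold Coord.D
  rw [fderiv_const_mul (hg x)]; rfl

lemma Coord.D_add {f g : W → ℝ} (hf : Differentiable ℝ f) (hg : Differentiable ℝ g) (j : ℕ) (x : W) :
    c.D (fun x => f x + g x) j x = c.D f j x + c.D g j x := by
  unfold Coord.D
  rw [fderiv_fun_add (hf x) (hg x)]; rfl

lemma Coord.N2.const_mul {c : Coord W} {g : W → ℝ} (hg : c.N2 g) (a : ℝ) : c.N2 (fun x => a * g x) := by
  refine ⟨hg.1.const_mul a, fun j => ?_⟩
  have : c.D (fun x => a * g x) j = fun x => a * c.D g j x := by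
    funext x
    exact c.D_const_mul hg.1.1 a j x
  rw [this]
  exact (hg.2 j).const_mul a

lemma Coord.N2.neg {c : Coord W} {g : W → ℝ} (hg : c.N2 g) : c.N2 (fun x => - g x) := by
  simpa using hg.const_mul (-1)

lemma Coord.N2.sub {c : Coord W} {f g : W → ℝ} (hf : c.N2 f) (hg : c.N2 g) : c.N2 (fun x => f x - g x) := by
  simpa [sub_eq_add_neg] using hf.add hg.neg

lemma Coord.D_comp {ψ ψ' : ℝ → ℝ} (h : ∀ t, HasDerivAt ψ (ψ' t) t) {f : W → ℝ}
    (hf : Differentiable ℝ f) (j : ℕ) (x : W) : c.D (fun x => ψ (f x)) j x = ψ' (f x) * c.D f j x := by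
  unfold Coord.D
  rw [(fderiv_comp_real h (hf x)).fderiv]; rfl

lemma Coord.N2.comp {c : Coord W} {ψ ψ' ψ'' : ℝ → ℝ} (h : ∀ t, HasDerivAt ψ (ψ' t) t)
    (h' : ∀ t, HasDerivAt ψ' (ψ'' t) t) (hb : Bd ψ') (hb' : Bd ψ'') {f : W → ℝ} (hf : c.N2 f) :
    c.N2 (fun x => ψ (f x)) := by
  refine ⟨hf.1.comp h hb, fun j => ?_⟩
  have : c.D (fun x => ψ (f x)) j = fun x => ψ' (f x) * c.D f j x := by
    funext x
    exact c.D_comp h hf.1.1 j x
  rw [this]
  refine (hf.1.comp h' hb').mul (hf.2 j) ?_ (hf.1.Bd_D c j)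
  obtain ⟨A, hA0, hA⟩ := hb
  exact ⟨A, hA0, fun x => hA _⟩

lemma Coord.D_mul {f g : W → ℝ} (hf : Differentiable ℝ f) (hg : Differentiable ℝ g) (j : ℕ) (x : W) :
    c.D (fun x => f x * g x) j x = f x * c.D g j x + g x * c.D f j x := by
  unfold Coord.D
  rw [fderiv_mul_apply (hf x) (hg x)]; rfl

lemma Coord.Cyl.mono {c : Coord W} {J J' : ℕ} {g : W → ℝ} (h : c.Cyl J g) (hJ : J ≤ J') : c.Cyl J' g :=
  fun x y hxy => h x y fun i hi => hxy i (lt_of_lt_of_le hi hJ)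

lemma Coord.Cyl.fderiv_eq {c : Coord W} {J : ℕ} {g : W → ℝ} (h : c.Cyl J g) {x y : W}
    (hxy : ∀ i < J, c.co i x = c.co i y) : fderiv ℝ g x = fderiv ℝ g y := by
  have e1 := fderiv_comp_add_right (𝕜 := ℝ) (f := g) (x := (0 : W)) x
  have e2 := fderiv_comp_add_right (𝕜 := ℝ) (f := g) (x := (0 : W)) y
  rw [zero_add] at e1 e2
  rw [← e1, ← e2]
  congr 1
  funext z
  apply h
  intro i hi
  rw [map_add, map_add, hxy i hi]

lemma Coord.Cyl.D_cyl {c : Coord W} {J : ℕ} {g : W → ℝ} (h : c.Cyl J g) (j : ℕ) : c.Cyl J (c.D g j) := by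
  intro x y hxy
  unfold Coord.D
  rw [h.fderiv_eq hxy]

lemma Coord.Cyl.D_eq_zero {c : Coord W} {J : ℕ} {g : W → ℝ} (h : c.Cyl J g) (hg : Differentiable ℝ g)
    {j : ℕ} (hj : J ≤ j) (x : W) : c.D g j x = 0 := by
  have h1 : HasDerivAt (fun t : ℝ => x + t • c.e j) (c.e j) 0 := by
    have := ((hasDerivAt_id (0 : ℝ)).smul_const (c.e j)).const_add x
    simpa using this
  have h2 : HasDerivAt (fun t : ℝ => g (x + t • c.e j)) (fderiv ℝ g x (c.e j)) 0 := by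
    have h3 : HasFDerivAt g (fderiv ℝ g x) (x + (0 : ℝ) • c.e j) := by
      simpa using (hg x).hasFDerivAt
    exact h3.comp_hasDerivAt (0 : ℝ) h1
  have h3 : (fun t : ℝ => g (x + t • c.e j)) = fun _ => g x := by
    funext t
    apply h
    intro i hi
    rw [map_add, map_smul, c.co_e, if_neg (by omega)]
    simp
  rw [h3] at h2
  exact h2.unique (hasDerivAt_const _ _)

lemma Coord.Cyl.comp2 {c : Coord W} {J : ℕ} {f g : W → ℝ} (hf : c.Cyl J f) (hg : c.Cyl J g)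
    (m : ℝ → ℝ → ℝ) : c.Cyl J (fun x => m (f x) (g x)) := by
  intro x y hxy
  simp only [hf x y hxy, hg x y hxy]

lemma Coord.Cyl.const (c : Coord W) (a : ℝ) (J : ℕ) : c.Cyl J (fun _ => a) := fun _ _ _ => rfl

end

end Pool.Agent.Helper81.FreeL1
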