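import Pool.Agent.Helper81.FreeL1.F3

/-! Smooth approximation of Lipschitz functions on finite sets. -/

open Filter Topology

namespace Pool.Agent.Helper81.FreeL1

/-- smooth absolute value -/
noncomputable def sa (η t : ℝ) : ℝ := Real.sqrt (t ^ 2 + η ^ 2)

lemma sa_pos {η : ℝ} (hη : 0 < η) (t : ℝ) : 0 < sa η t := Real.sqrt_pos.mpr (by positivity)

lemma sa_sq {η : ℝ} (hη : 0 < η) (t : ℝ) : sa η t ^ 2 = t ^ 2 + η ^ 2 := Real.sq_sqrt (by positivity)

lemma abs_le_sa {η : ℝ} (hη : 0 < η) (t : ℝ) : |t| ≤ sa η t := by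
  apply abs_le_of_sq_le_sq _ (sa_pos hη t).le
  rw [sa_sq hη]
  nlinarith [sq_nonneg η]

lemma sa_le {η : ℝ} (hη : 0 < η) (t : ℝ) : sa η t ≤ |t| + η := by
  unfold sa
  rw [Real.sqrt_le_left (by positivity)]
  nlinarith [abs_nonneg t, sq_abs t]

lemma eta_le_sa {η : ℝ} (hη : 0 < η) (t : ℝ) : η ≤ sa η t := by
  have h := sa_sq hη t
  have := abs_le_of_sq_le_sq (a := η) (b := sa η t) (by nlinarith [sq_nonneg t]) (sa_pos hη t).le
  rwa [abs_of_pos hη] at this

lemma sa_zero {η : ℝ} (hη : 0 < η) : sa η 0 = η := by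
  unfold sa
  rw [zero_pow two_ne_zero, zero_add, Real.sqrt_sq hη.le]

lemma sa_hasDerivAt {η : ℝ} (hη : 0 < η) (t : ℝ) : HasDerivAt (sa η) (t / sa η t) t := by
  have h1 : HasDerivAt (fun t : ℝ => t ^ 2 + η ^ 2) (2 * t) t := by
    simpa using (hasDerivAt_pow 2 t).add_const (η ^ 2)
  have h2 := h1.sqrt (by positivity)
  have h3 : 2 * t / (2 * Real.sqrt (t ^ 2 + η ^ 2)) = t / sa η t := by
    unfold sa
    rw [mul_div_mul_left _ _ two_ne_zero]
  rw [h3] at h2
  exact h2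

lemma sa_hasDerivAt' {η : ℝ} (hη : 0 < η) (t : ℝ) :
    HasDerivAt (fun t => t / sa η t) (η ^ 2 / sa η t ^ 3) t := by
  have h1 := (hasDerivAt_id t).div (sa_hasDerivAt hη t) (sa_pos hη t).ne'
  have h2 : (1 * sa η t - id t * (t / sa η t)) / sa η t ^ 2 = η ^ 2 / sa η t ^ 3 := by
    have h0 := (sa_pos hη t).ne'
    have h3 := sa_sq hη t
    simp only [id]
    field_simp
    linear_combination h3
  rw [h2] at h1
  exact h1

lemma sa_deriv_abs_le {η : ℝ} (hη : 0 < η) (t : ℝ) : |t / sa η t| ≤ 1 := by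
  rw [abs_div, abs_of_pos (sa_pos hη t), div_le_one (sa_pos hη t)]
  exact abs_le_sa hη t

lemma sa_deriv_bd {η : ℝ} (hη : 0 < η) : Bd (fun t => t / sa η t) := ⟨1, zero_le_one, sa_deriv_abs_le hη⟩

lemma sa_deriv2_bd {η : ℝ} (hη : 0 < η) : Bd (fun t => η ^ 2 / sa η t ^ 3) := by
  refine ⟨1 / η, by positivity, fun t => ?_⟩
  have h0 := sa_pos hη t
  rw [abs_of_pos (by positivity), div_le_div_iff₀ (by positivity) hη]
  have := pow_le_pow_left₀ hη.le (eta_le_sa hη t) 3
  linarith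

section

variable {W : Type*} [NormedAddCommGroup W] [NormedSpace ℝ W] {c : Coord W}

lemma Coord.N2.sum {ι : Type*} (s : Finset ι) {f : ι → W → ℝ} (hf : ∀ i ∈ s, c.N2 (f i)) :
    c.N2 (fun x => ∑ i ∈ s, f i x) := by
  classical
  induction s using Finset.induction_on with
  | empty => simpa using Coord.N2.const (c := c) 0
  | insert i s hi ih =>
    have h1 := hf i (Finset.mem_insert_self _ _)
    have h2 := ih (fun j hj => hf j (Finset.mem_insert_of_mem hj))
    have := h1.add h2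
    simpa [Finset.sum_insert hi] using this

lemma Coord.D_sum {ι : Type*} (s : Finset ι) {f : ι → W → ℝ} (hf : ∀ i ∈ s, Differentiable ℝ (f i)) (j : ℕ)
    (x : W) : c.D (fun x => ∑ i ∈ s, f i x) j x = ∑ i ∈ s, c.D (f i) j x := by
  unfold Coord.D
  rw [fderiv_fun_sum (fun i hi => hf i hi x), ContinuousLinearMap.sum_apply]

lemma Coord.N2.coord (j : ℕ) (a : ℝ) : c.N2 (fun x => c.co j x - a) := by
  have h1 : ∀ x, HasFDerivAt (fun x => c.co j x - a) (c.co j) x := fun x =>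
    (c.co j).hasFDerivAt.sub_const a
  refine ⟨⟨fun x => (h1 x).differentiableAt, ‖c.co j‖, norm_nonneg _, fun x => by rw [(h1 x).fderiv]⟩, fun i => ?_⟩
  have : c.D (fun x => c.co j x - a) i = fun _ => c.co j (c.e i) := by
    funext x
    unfold Coord.D
    rw [(h1 x).fderiv]
  rw [this]
  exact N1.const _

lemma Coord.D_coord (j : ℕ) (a : ℝ) (i : ℕ) (x : W) :
    c.D (fun x => c.co j x - a) i x = if j = i then 1 else 0 := by
  have h1 : HasFDerivAt (fun x => c.co j x - a) (c.co j) x := (c.co j).hasFDerivAt.sub_const a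
  unfold Coord.D
  rw [h1.fderiv, c.co_e]

/-- nice functions: twice differentiable in the sense above, Lipschitz, depending on finitely many
coordinates -/
def Coord.Nice (c : Coord W) (L : ℝ) (J : ℕ) (g : W → ℝ) : Prop :=
  c.N2 g ∧ (∀ x, ‖fderiv ℝ g x‖ ≤ L) ∧ c.Cyl J g

lemma smax {L : ℝ} {J : ℕ} {u v : W → ℝ} (hu : c.Nice L J u) (hv : c.Nice L J v) {η : ℝ}
    (hη : 0 < η) : ∃ g, c.Nice L J g ∧ ∀ x, u x ≤ g x ∧ v x ≤ g x ∧ (g x ≤ u x + η ∨ g x ≤ v x + η) := by
  refine ⟨fun x => 1 / 2 * ((u x + v x) + sa η (u x - v x)), ⟨?_, ?_, ?_⟩, ?_⟩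
  · exact ((hu.1.add hv.1).add ((hu.1.sub hv.1).comp (sa_hasDerivAt hη) (sa_hasDerivAt' hη)
      (sa_deriv_bd hη) (sa_deriv2_bd hη))).const_mul _
  · intro x
    have hux := (hu.1.1.1 x).hasFDerivAt
    have hvx := (hv.1.1.1 x).hasFDerivAt
    have h1 := (sa_hasDerivAt hη (u x - v x)).comp_hasFDerivAt x (hux.sub hvx)
    have h2 := ((hux.add hvx).add h1).const_mul (1 / 2 : ℝ)
    set s := (u x - v x) / sa η (u x - v x) with hs
    have hs1 : |s| ≤ 1 := sa_deriv_abs_le hη _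
    rw [abs_le] at hs1
    have h3 : fderiv ℝ (fun x => 1 / 2 * ((u x + v x) + sa η (u x - v x))) x =
        ((1 + s) / 2) • fderiv ℝ u x + ((1 - s) / 2) • fderiv ℝ v x := by
      refine (HasFDerivAt.fderiv h2).trans ?_
      ext y
      simp only [ContinuousLinearMap.smul_apply, ContinuousLinearMap.add_apply,
        ContinuousLinearMap.sub_apply, smul_eq_mul]
      ring
    rw [h3]
    calc ‖((1 + s) / 2) • fderiv ℝ u x + ((1 - s) / 2) • fderiv ℝ v x‖
        ≤ ‖((1 + s) / 2) • fderiv ℝ u x‖ + ‖((1 - s) / 2) • fderiv ℝ v x‖ := norm_add_le _ _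
      _ = (1 + s) / 2 * ‖fderiv ℝ u x‖ + (1 - s) / 2 * ‖fderiv ℝ v x‖ := by
        rw [norm_smul, norm_smul, Real.norm_eq_abs, Real.norm_eq_abs, abs_of_nonneg (by linarith),
          abs_of_nonneg (by linarith)]
      _ ≤ (1 + s) / 2 * L + (1 - s) / 2 * L := by
        gcongr
        · linarith
        · exact hu.2.1 x
        · linarith
        · exact hv.2.1 x
      _ = L := by ring
  · exact hu.2.2.comp2 hv.2.2 (fun a b => 1 / 2 * ((a + b) + sa η (a - b)))
  · intro x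
    have h1 := abs_le_sa hη (u x - v x)
    have h2 := sa_le hη (u x - v x)
    have h3 := le_abs_self (u x - v x)
    have h4 := neg_abs_le (u x - v x)
    refine ⟨by linarith, by linarith, ?_⟩
    rcases abs_cases (u x - v x) with ⟨h5, _⟩ | ⟨h5, _⟩
    · left; linarith
    · right; linarith

lemma smax_finset {ι : Type*} (E : Finset ι) {L : ℝ} {J : ℕ} {u : ι → W → ℝ} {u0 : W → ℝ}
    (hu : ∀ p ∈ E, c.Nice L J (u p)) (h0 : c.Nice L J u0) {η : ℝ} (hη : 0 < η) :
    ∃ g, c.Nice L J g ∧ ∀ x, u0 x ≤ g x ∧ (∀ p ∈ E, u p x ≤ g x) ∧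
      (g x ≤ u0 x + E.card * η ∨ ∃ p ∈ E, g x ≤ u p x + E.card * η) := by
  classical
  induction E using Finset.induction_on with
  | empty => exact ⟨u0, h0, fun x => ⟨le_rfl, by simp, by simp⟩⟩
  | insert i s hi ih =>
    obtain ⟨g, hg, hgx⟩ := ih (fun p hp => hu p (Finset.mem_insert_of_mem hp))
    obtain ⟨g', hg', hgx'⟩ := smax hg (hu i (Finset.mem_insert_self _ _)) hη
    refine ⟨g', hg', fun x => ?_⟩
    obtain ⟨a1, a2, a3⟩ := hgx x
    obtain ⟨b1, b2, b3⟩ := hgx' x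
    rw [Finset.card_insert_of_notMem hi]
    push_cast
    have hc : 0 ≤ (s.card : ℝ) * η := by positivity
    refine ⟨a1.trans b1, ?_, ?_⟩
    · intro p hp
      rcases Finset.mem_insert.mp hp with rfl | hp
      · exact b2
      · exact (a2 p hp).trans b1
    · rcases b3 with b3 | b3
      · rcases a3 with a3 | ⟨p, hp, a3⟩
        · left; linarith
        · right; exact ⟨p, Finset.mem_insert_of_mem hp, by linarith⟩
      · right; exact ⟨i, Finset.mem_insert_self _ _, by linarith⟩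

/-- smooth cone -/
lemma cone_nice (a : ℝ) (p : W) (m : ℕ) {δ : ℝ} (hδ : 0 < δ) :
    c.Nice 2 m (fun x => a - 2 * ∑ j ∈ Finset.range m, sa δ (c.co j x - c.co j p)) := by
  have hj : ∀ j, c.N2 (fun x => sa δ (c.co j x - c.co j p)) := fun j =>
    (Coord.N2.coord j (c.co j p)).comp (sa_hasDerivAt hδ) (sa_hasDerivAt' hδ)
      (sa_deriv_bd hδ) (sa_deriv2_bd hδ)
  have hs : c.N2 (fun x => ∑ j ∈ Finset.range m, sa δ (c.co j x - c.co j p)) :=
    Coord.N2.sum _ (fun j _ => hj j)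
  have hN : c.N2 (fun x => a - 2 * ∑ j ∈ Finset.range m, sa δ (c.co j x - c.co j p)) :=
    (Coord.N2.const a).sub (hs.const_mul 2)
  refine ⟨hN, ?_, ?_⟩
  · intro x
    apply c.norm_fderiv_le
    intro i
    have e1 : (fun x => a - 2 * ∑ j ∈ Finset.range m, sa δ (c.co j x - c.co j p)) =
        fun x => a + (-2) * ∑ j ∈ Finset.range m, sa δ (c.co j x - c.co j p) := by
      funext x; ring
    rw [e1, c.D_add (differentiable_const a) (hs.1.1.const_mul _), c.D_const_mul hs.1.1,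
      c.D_sum _ (fun j _ => (hj j).1.1)]
    have e2 : c.D (fun _ => a) i x = 0 := by
      unfold Coord.D; simp
    rw [e2, zero_add]
    have e3 : ∀ j ∈ Finset.range m, c.D (fun x => sa δ (c.co j x - c.co j p)) i x =
        if j = i then (c.co i x - c.co i p) / sa δ (c.co i x - c.co i p) else 0 := by
      intro j _
      rw [c.D_comp (sa_hasDerivAt hδ) (Coord.N2.coord (c := c) j (c.co j p)).1.1, c.D_coord]
      split_ifs with h
      · rw [h, mul_one]
      · rw [mul_zero]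
    rw [Finset.sum_congr rfl e3, Finset.sum_ite_eq', abs_mul, abs_neg, abs_two]
    split_ifs
    · have := sa_deriv_abs_le hδ (c.co i x - c.co i p)
      linarith
    · simp
  · intro x y hxy
    show a - 2 * _ = a - 2 * _
    congr 2
    refine Finset.sum_congr rfl fun j hj => ?_
    rw [hxy j (Finset.mem_range.mp hj)]

/-- approximation of a bounded Lipschitz function on a finite set -/
theorem approx (c : Coord W) (E : Finset W) (G : W → ℝ) (hG : Lip 2 G) {R : ℝ} (hR : 0 ≤ R) (hGR : ∀ x, |G x| ≤ R)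
    {ε : ℝ} (hε : 0 < ε) : ∃ J g, c.Nice 2 J g ∧ (∀ x, |g x| ≤ R + 1) ∧ ∀ x ∈ E, |g x - G x| ≤ ε := by
  classical
  -- choose the number of coordinates
  obtain ⟨m, hm⟩ : ∃ m : ℕ, ∀ x ∈ E, ∀ p ∈ E, ‖x - p‖ ≤ ∑ j ∈ Finset.range m, |c.co j (x - p)| + ε / 4 := by
    have h1 : ∀ q : W × W, ∃ m₀, ∀ m, m₀ ≤ m → ‖q.1 - q.2‖ ≤ ∑ j ∈ Finset.range m, |c.co j (q.1 - q.2)| + ε / 4 :=
      fun q => c.sum_lim _ _ (by linarith)
    choose m₀ hm₀ using h1
    refine ⟨(E ×ˢ E).sup m₀, fun x hx p hp => hm₀ (x, p) _ ?_⟩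
    exact Finset.le_sup (f := m₀) (Finset.mk_mem_product hx hp)
  obtain ⟨δ, hδ, hδ'⟩ : ∃ δ : ℝ, 0 < δ ∧ 2 * (m * δ) ≤ ε := by
    refine ⟨ε / (2 * (m + 1)), by positivity, ?_⟩
    rw [← mul_assoc, ← mul_div_assoc, div_le_iff₀ (by positivity)]
    nlinarith
  obtain ⟨η, hη, hη', hη''⟩ : ∃ η : ℝ, 0 < η ∧ E.card * η ≤ ε / 2 ∧ E.card * η ≤ 1 := by
    refine ⟨min (ε / 2) 1 / (E.card + 1), by positivity, ?_, ?_⟩
    · rw [← mul_div_assoc, div_le_iff₀ (by positivity)]
      have := min_le_left (ε / 2) 1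
      have h0 : 0 ≤ (E.card : ℝ) := Nat.cast_nonneg _
      nlinarith
    · rw [← mul_div_assoc, div_le_iff₀ (by positivity)]
      have := min_le_right (ε / 2) 1
      have h0 : 0 ≤ (E.card : ℝ) := Nat.cast_nonneg _
      nlinarith
  obtain ⟨g, hg, hgx⟩ := smax_finset (c := c) E (L := 2) (J := m)
    (u := fun p x => G p - 2 * ∑ j ∈ Finset.range m, sa δ (c.co j x - c.co j p)) (u0 := fun _ => -R)
    (fun p _ => cone_nice (G p) p m hδ)
    ⟨Coord.N2.const _, fun x => by simp, Coord.Cyl.const c _ _⟩ hη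
  refine ⟨m, g, hg, ?_, ?_⟩
  · intro x
    obtain ⟨a1, a2, a3⟩ := hgx x
    rw [abs_le]
    constructor
    · linarith
    · rcases a3 with a3 | ⟨p, hp, a3⟩
      · linarith
      · have h1 := (abs_le.mp (hGR p)).2
        have h2 : 0 ≤ ∑ j ∈ Finset.range m, sa δ (c.co j x - c.co j p) :=
          Finset.sum_nonneg fun j _ => (sa_pos hδ _).le
        linarith
  · intro x hx
    obtain ⟨a1, a2, a3⟩ := hgx x
    have b1 := a2 x hx
    simp only [sub_self, sa_zero hδ, Finset.sum_const, Finset.card_range, nsmul_eq_mul] at b1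
    rw [abs_le]
    constructor
    · linarith
    · rcases a3 with a3 | ⟨p, hp, a3⟩
      · have h1 := (abs_le.mp (hGR x)).1
        linarith
      · have h2 : ∑ j ∈ Finset.range m, |c.co j (x - p)| ≤ ∑ j ∈ Finset.range m, sa δ (c.co j x - c.co j p) :=
          Finset.sum_le_sum fun j _ => by
            rw [map_sub]; exact abs_le_sa hδ _
        have h3 := hm x hx p hp
        have h4 := (abs_le.mp (hG x p)).1
        linarith

end

end Pool.Agent.Helper81.FreeL1
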