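import Pool.Agent.Helper81.FreeL1.F4

/-! Selection of a subsequence with good smooth test functions. -/

open Filter Topology

namespace Pool.Agent.Helper81.FreeL1

section

variable {W : Type*} [NormedAddCommGroup W] [NormedSpace ℝ W]

/-- partial sums -/
noncomputable def Sys.s (S : Sys W) (m : ℕ) : (W → ℝ) →ₗ[ℝ] ℝ := ∑ k ∈ Finset.range m, S.b k

lemma Sys.s_apply (S : Sys W) (m : ℕ) (f : W → ℝ) : S.s m f = ∑ k ∈ Finset.range m, S.b k f := by
  unfold Sys.s
  rw [LinearMap.sum_apply]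

/-- good test functions -/
def Good (S : Sys W) (c : Coord W) (a K : ℝ) (n : ℕ) : Set (W → ℝ) :=
  {g | (∃ J, c.Nice 2 J g) ∧ (∀ x, |g x| ≤ K) ∧ (∀ s, s < n → ∀ x ∈ S.E s, |g x| ≤ (1 / 2) ^ n) ∧
    (∀ᶠ m in atTop, a / 4 - a / 64 ≤ S.s m g) ∧ ∀ m, m ≤ n → |S.s m g| ≤ a / 64}

/-- subsystem -/
def Sys.sub (S : Sys W) (k : ℕ → ℕ) (hk : StrictMono k) : Sys W where
  b n := S.b (k n)
  E n := S.E (k n)
  V n := S.V (k n)
  B := S.B
  V_nonneg n := S.V_nonneg _
  B_nonneg := S.B_nonneg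
  small n := S.small (k n)
  upper T L f hL hf := by
    classical
    have := S.upper (T.image k) L f hL hf
    rwa [Finset.sum_image (fun x _ y _ h => hk.injective h)] at this

lemma Sys.tendsto_zero (S : Sys W) {L : ℝ} (hL : 0 ≤ L) {f : W → ℝ} (hf : Lip L f) :
    Tendsto (fun k => S.b k f) atTop (𝓝 0) := by
  have h1 : Summable (fun k => |S.b k f|) :=
    summable_of_sum_le (c := S.B * L) (fun _ => abs_nonneg _) (fun T => S.upper T L f hL hf)
  exact (tendsto_zero_iff_abs_tendsto_zero _).mpr h1.tendsto_atTop_zero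

theorem selection (S : Sys W) (c : Coord W) (a : ℝ) (ha : 0 < a) (R : ℝ) (hR : 0 < R)
    (h : ∀ M : ℕ, ∃ k, M ≤ k ∧ ∃ F : W → ℝ, Lip 1 F ∧ (∀ x, |F x| ≤ R) ∧ a / 2 ≤ |S.b k F|) :
    ∃ (S' : Sys W), ∀ n, (Good S' c a (2 * R + 1) n).Nonempty := by
  classical
  -- the witnesses
  have h1 : ∀ k, ∃ F : W → ℝ, Lip 1 F ∧ (∀ x, |F x| ≤ R) ∧
      ((∃ F : W → ℝ, Lip 1 F ∧ (∀ x, |F x| ≤ R) ∧ a / 2 ≤ |S.b k F|) → a / 2 ≤ |S.b k F|) := by
    intro k
    by_cases hk : ∃ F : W → ℝ, Lip 1 F ∧ (∀ x, |F x| ≤ R) ∧ a / 2 ≤ |S.b k F|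
    · obtain ⟨F, h1, h2, h3⟩ := hk
      exact ⟨F, h1, h2, fun _ => h3⟩
    · exact ⟨fun _ => 0, fun x y => by simpa using norm_nonneg _, fun x => by simpa using hR.le,
        fun h => absurd h hk⟩
  choose F hF1 hFR hFa using h1
  have hfreq : ∃ᶠ k in atTop, a / 2 ≤ |S.b k (F k)| := by
    rw [frequently_atTop]
    intro M
    obtain ⟨k, hk, h2⟩ := h M
    exact ⟨k, hk, hFa k h2⟩
  -- the ultrafilter
  have hne : NeBot (atTop ⊓ 𝓟 {k | a / 2 ≤ |S.b k (F k)|}) := by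
    rwa [← frequently_mem_iff_neBot]
  let 𝒱 : Ultrafilter ℕ := Ultrafilter.of (atTop ⊓ 𝓟 {k | a / 2 ≤ |S.b k (F k)|})
  have h𝒱 : (𝒱 : Filter ℕ) ≤ atTop ⊓ 𝓟 {k | a / 2 ≤ |S.b k (F k)|} := Ultrafilter.of_le _
  have h𝒱1 : (𝒱 : Filter ℕ) ≤ atTop := h𝒱.trans inf_le_left
  have h𝒱2 : ∀ᶠ k in (𝒱 : Filter ℕ), a / 2 ≤ |S.b k (F k)| := by
    have : {k | a / 2 ≤ |S.b k (F k)|} ∈ atTop ⊓ 𝓟 {k | a / 2 ≤ |S.b k (F k)|} :=
      mem_inf_of_right (mem_principal_self _)
    exact h𝒱 this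
  -- the limit function
  have hlim : ∀ x, ∃ y, Tendsto (fun k => F k x) (𝒱 : Filter ℕ) (𝓝 y) := by
    intro x
    have hc : IsCompact (Set.Icc (-R) R) := isCompact_Icc
    obtain ⟨y, _, hy⟩ := hc.ultrafilter_le_nhds (𝒱.map (fun k => F k x)) (by
      rw [le_principal_iff]
      refine Filter.mem_map.mpr (Filter.univ_mem' fun k => ?_)
      exact abs_le.mp (hFR k x))
    exact ⟨y, hy⟩
  choose Fi hFi using hlim
  have hFi1 : Lip 1 Fi := by
    intro x y
    have h2 := ((hFi x).sub (hFi y)).abs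
    exact le_of_tendsto h2 (Eventually.of_forall fun k => hF1 k x y)
  have hFiR : ∀ x, |Fi x| ≤ R := fun x => le_of_tendsto (hFi x).abs (Eventually.of_forall fun k => hFR k x)
  set G : ℕ → W → ℝ := fun k x => F k x - Fi x with hG
  have hG2 : ∀ k, Lip 2 (G k) := by
    intro k x y
    have e1 := hF1 k x y
    have e2 := hFi1 x y
    have e3 : G k x - G k y = (F k x - F k y) - (Fi x - Fi y) := by simp only [hG]; ring
    rw [e3]
    refine (abs_sub _ _).trans ?_
    linarith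
  have hGR : ∀ k x, |G k x| ≤ 2 * R := by
    intro k x
    have e1 := hFR k x
    have e2 := hFiR x
    refine (abs_sub _ _).trans ?_
    linarith
  have hG0 : ∀ x, Tendsto (fun k => G k x) (𝒱 : Filter ℕ) (𝓝 0) := by
    intro x
    have := (hFi x).sub_const (Fi x)
    rwa [sub_self] at this
  have hGa : ∀ᶠ k in (𝒱 : Filter ℕ), 7 * a / 16 ≤ |S.b k (G k)| := by
    have e1 : ∀ᶠ k in (𝒱 : Filter ℕ), |S.b k Fi| < a / 16 := by
      have := (S.tendsto_zero zero_le_one hFi1).abs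
      rw [abs_zero] at this
      exact h𝒱1 (this.eventually_lt_const (by linarith))
    filter_upwards [e1, h𝒱2] with k e1 e2
    have e3 : S.b k (G k) = S.b k (F k) - S.b k Fi := by
      rw [← map_sub]; rfl
    rw [e3]
    have := abs_sub_abs_le_abs_sub (S.b k (F k)) (S.b k Fi)
    linarith
  -- selection
  set w : ℕ → ℝ := fun r => a / 64 * (1 / 2) ^ (r + 2) with hw
  have hw0 : ∀ r, 0 < w r := fun r => by positivity
  have hwm : ∀ r r', r ≤ r' → w r' ≤ w r := fun r r' hr => by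
    simp only [hw]
    have := pow_le_pow_of_le_one (a := (1 / 2 : ℝ)) (by norm_num) (by norm_num) (Nat.add_le_add_right hr 2)
    gcongr
  obtain ⟨f, hf1, hf2⟩ := exists_seq_of_forall_finset_exists
    (α := ℕ × ℕ × (W → ℝ))
    (fun q => (∃ J, c.Nice 2 J q.2.2) ∧ (∀ x, |q.2.2 x| ≤ 2 * R + 1) ∧ 3 * a / 8 ≤ S.b q.2.1 q.2.2)
    (fun q q' => q.1 < q'.1 ∧ q.2.1 < q'.2.1 ∧ |S.b q'.2.1 q.2.2| ≤ w q'.1 ∧ |S.b q.2.1 q'.2.2| ≤ w q'.1 ∧
      ∀ x ∈ S.E q.2.1, |q'.2.2 x| ≤ (1 / 2) ^ q'.1) (by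
    intro s hs
    set r' := s.sup (fun q => q.1) + 1 with hr'
    obtain ⟨ρ, hρ, hρ1, hρ2⟩ : ∃ ρ : ℝ, 0 < ρ ∧ ρ ≤ (1 / 2) ^ r' ∧ ∀ q ∈ s, S.V q.2.1 * ρ ≤ w r' := by
      set VV := ∑ q ∈ s, S.V q.2.1 with hVV
      have hVV0 : 0 ≤ VV := Finset.sum_nonneg fun q _ => S.V_nonneg _
      refine ⟨min ((1 / 2) ^ r') (w r' / (1 + VV)), ?_, min_le_left _ _, ?_⟩
      · have := hw0 r'
        positivity
      · intro q hq
        have e1 : S.V q.2.1 ≤ VV := Finset.single_le_sum (f := fun q : ℕ × ℕ × (W → ℝ) => S.V q.2.1)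
          (fun q _ => S.V_nonneg _) hq
        calc S.V q.2.1 * min ((1 / 2) ^ r') (w r' / (1 + VV)) ≤ (1 + VV) * (w r' / (1 + VV)) := by
              apply mul_le_mul (by linarith) (min_le_right _ _) _ (by linarith)
              have := hw0 r'
              positivity
          _ = w r' := by field_simp
    -- the good index
    have E1 : ∀ᶠ k in (𝒱 : Filter ℕ), ∀ q ∈ s, q.2.1 < k := by
      rw [Filter.eventually_all_finset]
      intro q _
      exact h𝒱1 (eventually_gt_atTop _)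
    have E2 : ∀ᶠ k in (𝒱 : Filter ℕ), ∀ q ∈ s, |S.b k q.2.2| ≤ w r' := by
      rw [Filter.eventually_all_finset]
      intro q hq
      obtain ⟨⟨J, hJ⟩, _, _⟩ := hs q hq
      have := (S.tendsto_zero zero_le_two (lip_of_fderiv hJ.1.1.1 hJ.2.1)).abs
      rw [abs_zero] at this
      exact h𝒱1 (this.eventually_le_const (hw0 r'))
    have E3 : ∀ᶠ k in (𝒱 : Filter ℕ), ∀ q ∈ s, ∀ x ∈ S.E q.2.1, |G k x| ≤ ρ / 2 := by
      rw [Filter.eventually_all_finset]
      intro q hq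
      rw [Filter.eventually_all_finset]
      intro x _
      have := (hG0 x).abs
      rw [abs_zero] at this
      exact this.eventually_le_const (by linarith)
    obtain ⟨k, e0, e1, e2, e3⟩ := (hGa.and (E1.and (E2.and E3))).exists
    obtain ⟨ε, hε, hε1, hε2⟩ : ∃ ε : ℝ, 0 < ε ∧ ε ≤ ρ / 2 ∧ S.V k * ε ≤ a / 16 := by
      have hV := S.V_nonneg k
      refine ⟨min (ρ / 2) (a / 16 / (1 + S.V k)), by positivity, min_le_left _ _, ?_⟩
      calc S.V k * min (ρ / 2) (a / 16 / (1 + S.V k)) ≤ (1 + S.V k) * (a / 16 / (1 + S.V k)) := by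
            apply mul_le_mul (by linarith) (min_le_right _ _) (by positivity) (by linarith)
        _ = a / 16 := by field_simp
    -- sign
    obtain ⟨G', hG'2, hG'R, hG'a, hG'abs⟩ : ∃ G' : W → ℝ, Lip 2 G' ∧ (∀ x, |G' x| ≤ 2 * R) ∧
        7 * a / 16 ≤ S.b k G' ∧ ∀ x, |G' x| = |G k x| := by
      rcases le_total 0 (S.b k (G k)) with h0 | h0
      · rw [abs_of_nonneg h0] at e0
        exact ⟨G k, hG2 k, hGR k, e0, fun _ => rfl⟩
      · rw [abs_of_nonpos h0] at e0
        refine ⟨-G k, ?_, ?_, ?_, ?_⟩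
        · intro x y
          have := hG2 k y x
          rw [norm_sub_rev] at this
          simpa [sub_eq_add_neg, add_comm] using this
        · intro x
          rw [Pi.neg_apply, abs_neg]; exact hGR k x
        · rw [map_neg]; exact e0
        · intro x
          rw [Pi.neg_apply, abs_neg]
    obtain ⟨J, g, hg1, hg2, hg3⟩ := approx c (S.E k ∪ s.biUnion (fun q => S.E q.2.1)) G' hG'2
      (R := 2 * R) (by linarith) hG'R hε
    have hsm : ∀ q ∈ s, ∀ x ∈ S.E q.2.1, |g x| ≤ ρ := by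
      intro q hq x hx
      have a1 := hg3 x (Finset.mem_union_right _ (Finset.mem_biUnion.mpr ⟨q, hq, hx⟩))
      have a2 := e3 q hq x hx
      rw [← hG'abs] at a2
      have a3 : g x = (g x - G' x) + G' x := by ring
      rw [a3]
      refine (abs_add_le _ _).trans ?_
      linarith
    refine ⟨(r', k, g), ⟨⟨J, hg1⟩, hg2, ?_⟩, ?_⟩
    · have a1 := S.small k (G' - g) ε hε.le (fun x hx => by
        rw [Pi.sub_apply, abs_sub_comm]
        exact hg3 x (Finset.mem_union_left _ hx))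
      rw [map_sub] at a1
      have a2 := (abs_le.mp a1).2
      show 3 * a / 8 ≤ S.b k g
      linarith
    · intro q hq
      refine ⟨?_, e1 q hq, e2 q hq, ?_, ?_⟩
      · have : q.1 ≤ s.sup (fun q => q.1) := Finset.le_sup (f := fun q : ℕ × ℕ × (W → ℝ) => q.1) hq
        show q.1 < r'
        omega
      · exact (S.small q.2.1 g ρ hρ.le (hsm q hq)).trans (hρ2 q hq)
      · intro x hx
        exact (hsm q hq x hx).trans hρ1)
  -- the subsequence
  have hkm : StrictMono (fun n => (f n).2.1) := strictMono_nat_of_lt_succ fun n => (hf2 n (n + 1) (by omega)).2.1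
  have hrm : StrictMono (fun n => (f n).1) := strictMono_nat_of_lt_succ fun n => (hf2 n (n + 1) (by omega)).1
  have hrn : ∀ n, n ≤ (f n).1 := fun n => hrm.le_apply
  refine ⟨S.sub _ hkm, fun n => ⟨(f n).2.2, (hf1 n).1, (hf1 n).2.1, ?_, ?_, ?_⟩⟩
  all_goals
    have hb : ∀ s, s ≠ n → |S.b (f s).2.1 (f n).2.2| ≤ w s := by
      intro s hs
      rcases lt_or_gt_of_ne hs with h1 | h1
      · exact (hf2 s n h1).2.2.2.1.trans (hwm _ _ (h1.le.trans (hrn n)))
      · exact (hf2 n s h1).2.2.1.trans (hwm _ _ (hrn s))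
  · intro s hs x hx
    refine ((hf2 s n hs).2.2.2.2 x hx).trans ?_
    exact pow_le_pow_of_le_one (by norm_num) (by norm_num) (hrn n)
  all_goals
    have hsw : ∀ m, ∑ s ∈ Finset.range m, w s ≤ a / 64 := by
      intro m
      simp only [hw]
      rw [← Finset.mul_sum]
      have : ∑ i ∈ Finset.range m, (1 / 2 : ℝ) ^ (i + 2) ≤ 1 := by
        have h2 : ∑ i ∈ Finset.range m, (1 / 2 : ℝ) ^ (i + 2) = 1 / 2 - (1 / 2) ^ (m + 1) := by
          induction m with
          | zero => norm_num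
          | succ m ih => rw [Finset.sum_range_succ, ih]; ring
        rw [h2]
        have : (0 : ℝ) < (1 / 2) ^ (m + 1) := by positivity
        linarith
      nlinarith
  · filter_upwards [eventually_gt_atTop n] with m hm
    rw [Sys.s_apply]
    have h1 : ∑ k ∈ Finset.range m, (S.sub _ hkm).b k (f n).2.2 =
        S.b (f n).2.1 (f n).2.2 + ∑ k ∈ (Finset.range m).erase n, S.b (f k).2.1 (f n).2.2 :=
      (Finset.add_sum_erase (Finset.range m) (fun k => S.b (f k).2.1 (f n).2.2) (Finset.mem_range.mpr hm)).symm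
    rw [h1]
    have h2 : |∑ k ∈ (Finset.range m).erase n, S.b (f k).2.1 (f n).2.2| ≤ a / 64 := by
      calc |∑ k ∈ (Finset.range m).erase n, S.b (f k).2.1 (f n).2.2|
          ≤ ∑ k ∈ (Finset.range m).erase n, |S.b (f k).2.1 (f n).2.2| := Finset.abs_sum_le_sum_abs _ _
        _ ≤ ∑ k ∈ (Finset.range m).erase n, w k :=
          Finset.sum_le_sum fun k hk => hb k (Finset.ne_of_mem_erase hk)
        _ ≤ ∑ k ∈ Finset.range m, w k :=
          Finset.sum_le_sum_of_subset_of_nonneg (Finset.erase_subset _ _) (fun k _ _ => (hw0 k).le)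
        _ ≤ a / 64 := hsw m
    have h3 := (hf1 n).2.2
    have h4 := (abs_le.mp h2).1
    linarith
  · intro m hm
    rw [Sys.s_apply]
    calc |∑ k ∈ Finset.range m, S.b (f k).2.1 (f n).2.2|
        ≤ ∑ k ∈ Finset.range m, |S.b (f k).2.1 (f n).2.2| := Finset.abs_sum_le_sum_abs _ _
      _ ≤ ∑ k ∈ Finset.range m, w k := Finset.sum_le_sum fun k hk => hb k (by
          have := Finset.mem_range.mp hk
          omega)
      _ ≤ a / 64 := hsw m

end

end Pool.Agent.Helper81.FreeL1
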