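import Pool.Agent.Helper81.FreeL1.F5

/-! Small-scale truncation is almost harmless. -/

open Filter Topology

namespace Pool.Agent.Helper81.FreeL1

/-- error of the small scale truncation `κ sin (u / κ)` -/
noncomputable def Ef (κ u : ℝ) : ℝ := u - κ * Real.sin (u / κ)

lemma Ef_hasDerivAt {κ : ℝ} (hκ : 0 < κ) (u : ℝ) : HasDerivAt (Ef κ) (1 - Real.cos (u / κ)) u := by
  have h1 : HasDerivAt (fun u : ℝ => u / κ) (1 / κ) u := (hasDerivAt_id u).div_const κ
  have h2 := ((Real.hasDerivAt_sin (u / κ)).comp u h1).const_mul κ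
  have h3 := (hasDerivAt_id u).sub h2
  have h4 : 1 - κ * (Real.cos (u / κ) * (1 / κ)) = 1 - Real.cos (u / κ) := by
    field_simp
  rw [h4] at h3
  exact h3

lemma Ef_zero (κ : ℝ) : Ef κ 0 = 0 := by simp [Ef]

lemma Ef_lip {κ : ℝ} (hκ : 0 < κ) (u v : ℝ) : |Ef κ u - Ef κ v| ≤ 2 * |u - v| := by
  have := convex_univ.norm_image_sub_le_of_norm_deriv_le (f := Ef κ) (C := 2) (x := v) (y := u)
    (fun z _ => (Ef_hasDerivAt hκ z).differentiableAt) (fun z _ => by
      rw [(Ef_hasDerivAt hκ z).deriv, Real.norm_eq_abs, abs_le]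
      have h1 := Real.cos_le_one (z / κ)
      have h2 := Real.neg_one_le_cos (z / κ)
      constructor <;> linarith) (Set.mem_univ _) (Set.mem_univ _)
  simpa using this

lemma Ef_lip_small {κ κ' : ℝ} (hκ : 0 < κ) (_hκ' : 0 ≤ κ') {u v : ℝ} (hu : |u| ≤ κ') (hv : |v| ≤ κ') :
    |Ef κ u - Ef κ v| ≤ (κ' / κ) ^ 2 / 2 * |u - v| := by
  have := (convex_Icc (-κ') κ').norm_image_sub_le_of_norm_deriv_le (f := Ef κ) (C := (κ' / κ) ^ 2 / 2) (x := v) (y := u)
    (fun z _ => (Ef_hasDerivAt hκ z).differentiableAt) (fun z hz => by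
      rw [(Ef_hasDerivAt hκ z).deriv, Real.norm_eq_abs, abs_le]
      have h1 := Real.cos_le_one (z / κ)
      have h2 := Real.one_sub_sq_div_two_le_cos (x := z / κ)
      have h3 : (z / κ) ^ 2 ≤ (κ' / κ) ^ 2 := by
        rw [div_pow, div_pow]
        have : z ^ 2 ≤ κ' ^ 2 := sq_le_sq' hz.1 hz.2
        gcongr
      have h4 : 0 ≤ (κ' / κ) ^ 2 := by positivity
      constructor <;> linarith) (abs_le.mp hv) (abs_le.mp hu)
  simpa using this

section

variable {W : Type*} [NormedAddCommGroup W] [NormedSpace ℝ W]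

lemma Sys.s_bound (S : Sys W) (m : ℕ) (L : ℝ) (f : W → ℝ) (hL : 0 ≤ L) (hf : Lip L f) :
    |S.s m f| ≤ S.B * L := by
  rw [S.s_apply]
  exact (Finset.abs_sum_le_sum_abs _ _).trans (S.upper _ L f hL hf)

/-- union of the supports -/
noncomputable def Sys.EE (S : Sys W) (m : ℕ) : Finset W := by
  classical exact (Finset.range m).biUnion S.E

lemma Sys.mem_EE (S : Sys W) (m : ℕ) (x : W) : x ∈ S.EE m ↔ ∃ k < m, x ∈ S.E k := by
  classical
  unfold Sys.EE
  simp

theorem tlemma (S : Sys W) (c : Coord W) (a : ℝ) (ha : 0 < a) (K : ℝ) {κ : ℝ} (hκ : 0 < κ) :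
    ∃ n₀ : ℕ, ∀ n, n₀ ≤ n → ∀ g ∈ Good S c a K n, ∀ g' ∈ Good S c a K n, ∀ m,
      |S.s m (fun x => Ef κ (g x - g' x))| ≤ a / 16 := by
  by_contra hcon
  push Not at hcon
  have hB := S.B_nonneg
  obtain ⟨t, ht, ht1, htB⟩ : ∃ t : ℝ, 0 < t ∧ t ≤ 1 ∧ S.B * (2 * t ^ 2) ≤ a / 64 := by
    refine ⟨min 1 (a / 128 / (S.B + 1)), by positivity, min_le_left _ _, ?_⟩
    set t := min 1 (a / 128 / (S.B + 1)) with ht
    have h1 : t ≤ 1 := min_le_left _ _
    have h0 : 0 < t := by positivity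
    have h2 : t * (S.B + 1) ≤ a / 128 := by
      rw [← le_div_iff₀ (by positivity)]; exact min_le_right _ _
    have h3 : t ^ 2 ≤ t := by nlinarith
    nlinarith
  set κ' := κ * t with hκ'
  have hκ'0 : 0 < κ' := by positivity
  have hκt : κ' / κ = t := by rw [hκ']; field_simp
  set δ := κ' / 8 with hδ
  have hδ0 : 0 < δ := by positivity
  obtain ⟨n₁, hn₁⟩ : ∃ n₁ : ℕ, ∀ n, n₁ ≤ n → 2 * (1 / 2 : ℝ) ^ n ≤ κ' / 2 := by
    have h1 : Tendsto (fun n : ℕ => 2 * (1 / 2 : ℝ) ^ n) atTop (𝓝 (2 * 0)) :=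
      (tendsto_pow_atTop_nhds_zero_of_lt_one (by norm_num) (by norm_num)).const_mul 2
    rw [mul_zero] at h1
    exact eventually_atTop.mp (h1.eventually_le_const (by positivity))
  have hK : 0 ≤ K := by
    obtain ⟨n, _, g, hg, _⟩ := hcon 0
    exact (abs_nonneg _).trans (hg.2.1 0)
  set K2 := 2 * (2 * K) + 2 * κ' with hK2
  refine ghd S {A | ∃ m : ℕ, A = {x | ∃ p ∈ S.EE m, ‖x - p‖ < δ / 2}} (K2 * (2 / δ) + 10) (a / 32)
    (by positivity) (by positivity) ⟨_, 0, rfl⟩ ?_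
  rintro M _ ⟨m₀, rfl⟩
  obtain ⟨n, hn, g, hg, g', hg', m, hm⟩ := hcon (max M (max m₀ n₁))
  have hnM : M ≤ n := (le_max_left _ _).trans hn
  have hnm : m₀ ≤ n := ((le_max_left _ _).trans (le_max_right _ _)).trans hn
  have hnn : n₁ ≤ n := ((le_max_right _ _).trans (le_max_right _ _)).trans hn
  set d : W → ℝ := fun x => g x - g' x with hd
  have hdL : Lip 4 d := by
    obtain ⟨⟨J, hJ⟩, _⟩ := hg
    obtain ⟨⟨J', hJ'⟩, _⟩ := hg'
    have e1 := lip_of_fderiv hJ.1.1.1 hJ.2.1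
    have e2 := lip_of_fderiv hJ'.1.1.1 hJ'.2.1
    intro x y
    have e3 : d x - d y = (g x - g y) - (g' x - g' y) := by simp only [hd]; ring
    rw [e3]
    refine (abs_sub _ _).trans ?_
    have := e1 x y
    have := e2 x y
    linarith
  have hdK : ∀ x, |d x| ≤ 2 * K := by
    intro x
    have e1 := hg.2.1 x
    have e2 := hg'.2.1 x
    refine (abs_sub _ _).trans ?_
    linarith
  have hds : ∀ s, s < n → ∀ x ∈ S.E s, |d x| ≤ κ' / 2 := by
    intro s hs x hx
    have e1 := hg.2.2.1 s hs x hx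
    have e2 := hg'.2.2.1 s hs x hx
    have e3 := hn₁ n hnn
    refine (abs_sub _ _).trans ?_
    linarith
  -- decomposition
  set E1 : ℝ → ℝ := fun u => Ef κ (clamp κ' u) with hE1
  set E2 : ℝ → ℝ := fun u => Ef κ u - Ef κ (clamp κ' u) with hE2
  have hE1L : Lip (2 * t ^ 2) (fun x => E1 (d x)) := by
    intro x y
    have e1 := Ef_lip_small hκ hκ'0.le (clamp_abs_le hκ'0.le (d x)) (clamp_abs_le hκ'0.le (d y))
    have e2 := clamp_lip κ' (d x) (d y)
    have e3 := hdL x y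
    rw [hκt] at e1
    calc |E1 (d x) - E1 (d y)| ≤ t ^ 2 / 2 * |clamp κ' (d x) - clamp κ' (d y)| := e1
      _ ≤ t ^ 2 / 2 * (4 * ‖x - y‖) := by
        gcongr
        exact e2.trans e3
      _ = 2 * t ^ 2 * ‖x - y‖ := by ring
  have hE2L : Lip 10 (fun x => E2 (d x)) := by
    intro x y
    have e1 := hE1L x y
    have e2 := Ef_lip hκ (d x) (d y)
    have e3 := hdL x y
    have e4 : E2 (d x) - E2 (d y) = (Ef κ (d x) - Ef κ (d y)) - (E1 (d x) - E1 (d y)) := by
      simp only [hE1, hE2]; ring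
    rw [e4]
    refine (abs_sub _ _).trans ?_
    have e5 : t ^ 2 ≤ 1 := by nlinarith
    have e6 : 2 * t ^ 2 * ‖x - y‖ ≤ 2 * ‖x - y‖ := by
      have := norm_nonneg (x - y)
      nlinarith
    simp only at e1
    linarith
  have hE2z : ∀ u, |u| ≤ κ' → E2 u = 0 := by
    intro u hu
    simp only [hE2]
    rw [clamp_eq hu, sub_self]
  have hE2K : ∀ x, |E2 (d x)| ≤ K2 := by
    intro x
    have e1 := Ef_lip hκ (d x) 0
    have e2 := Ef_lip hκ (clamp κ' (d x)) 0
    rw [Ef_zero, sub_zero, sub_zero] at e1 e2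
    have e3 := clamp_abs_le hκ'0.le (d x)
    have e4 := hdK x
    refine (abs_sub _ _).trans ?_
    linarith
  have hsum : S.s m (fun x => Ef κ (g x - g' x)) = S.s m (fun x => E1 (d x)) + S.s m (fun x => E2 (d x)) := by
    rw [← map_add]
    congr 1
    funext x
    simp only [Pi.add_apply, hE1, hE2, hd]
    ring
  have hs1 := S.s_bound m _ _ (by positivity) hE1L
  have hs2 : a / 32 ≤ |S.s m (fun x => E2 (d x))| := by
    rw [hsum] at hm
    have := abs_add_le (S.s m (fun x => E1 (d x))) (S.s m (fun x => E2 (d x)))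
    linarith
  have hbz : ∀ k, k < n → S.b k (fun x => E2 (d x)) = 0 := by
    intro k hk
    apply S.eq_zero
    intro x hx
    exact hE2z _ ((hds k hk x hx).trans (by linarith))
  have hnm' : n ≤ m := by
    by_contra hlt
    push Not at hlt
    have : S.s m (fun x => E2 (d x)) = 0 := by
      rw [S.s_apply]
      exact Finset.sum_eq_zero fun k hk => hbz k ((Finset.mem_range.mp hk).trans hlt)
    rw [this, abs_zero] at hs2
    linarith
  have hEne : (S.EE m).Nonempty := by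
    by_contra hemp
    have : S.s m (fun x => E2 (d x)) = 0 := by
      rw [S.s_apply]
      refine Finset.sum_eq_zero fun k hk => S.eq_zero _ _ fun x hx => ?_
      exact absurd ⟨x, (S.mem_EE m x).mpr ⟨k, Finset.mem_range.mp hk, hx⟩⟩ hemp
    rw [this, abs_zero] at hs2
    linarith
  have hEne' : ((S.EE m : Finset W) : Set W).Nonempty := by exact_mod_cast hEne
  set χ : W → ℝ := fun x => max 0 (min 1 (1 - 2 / δ * Metric.infDist x (S.EE m : Set W))) with hχ
  have hχL : ∀ x y, |χ x - χ y| ≤ 2 / δ * ‖x - y‖ := by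
    intro x y
    refine (unit_lip _ _).trans ?_
    have e1 : (1 - 2 / δ * Metric.infDist x (S.EE m : Set W)) - (1 - 2 / δ * Metric.infDist y (S.EE m : Set W)) =
      -(2 / δ * (Metric.infDist x (S.EE m : Set W) - Metric.infDist y (S.EE m : Set W))) := by ring
    rw [e1, abs_neg, abs_mul, abs_of_pos (by positivity : (0 : ℝ) < 2 / δ)]
    gcongr
    have := (Metric.lipschitz_infDist_pt (S.EE m : Set W)).dist_le_mul x y
    simpa [Real.dist_eq, dist_eq_norm] using this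
  have hχ1 : ∀ x, |χ x| ≤ 1 := by
    intro x
    rw [abs_of_nonneg (le_max_left _ _)]
    exact max_le zero_le_one (min_le_left _ _)
  refine ⟨Finset.Ico n m, fun k hk => hnM.trans (Finset.mem_Ico.mp hk).1, fun x => E2 (d x) * χ x, ?_, ?_,
    {x | ∃ p ∈ S.EE m, ‖x - p‖ < δ / 2}, ⟨m, rfl⟩, ?_, ?_, ?_⟩
  · intro x y
    have e1 : E2 (d x) * χ x - E2 (d y) * χ y = E2 (d x) * (χ x - χ y) + χ y * (E2 (d x) - E2 (d y)) := by ring
    rw [e1]
    calc |E2 (d x) * (χ x - χ y) + χ y * (E2 (d x) - E2 (d y))|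
        ≤ |E2 (d x) * (χ x - χ y)| + |χ y * (E2 (d x) - E2 (d y))| := abs_add_le _ _
      _ = |E2 (d x)| * |χ x - χ y| + |χ y| * |E2 (d x) - E2 (d y)| := by rw [abs_mul, abs_mul]
      _ ≤ K2 * (2 / δ * ‖x - y‖) + 1 * (10 * ‖x - y‖) := by
        gcongr
        · exact hE2K x
        · exact hχL x y
        · exact hχ1 y
        · exact hE2L x y
      _ = (K2 * (2 / δ) + 10) * ‖x - y‖ := by ring
  · rintro x ⟨p, hp, hxp⟩
    show E2 (d x) * χ x = 0
    obtain ⟨s, hs, hps⟩ := (S.mem_EE m₀ p).mp hp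
    have e1 := hds s (lt_of_lt_of_le hs hnm) p hps
    have e2 := hdL x p
    rw [hE2z, zero_mul]
    have e3 : d x = (d x - d p) + d p := by ring
    rw [e3]
    refine (abs_add_le _ _).trans ?_
    linarith
  · rintro x ⟨p, hp, hxp⟩
    obtain ⟨s, hs, hps⟩ := (S.mem_EE m₀ p).mp hp
    exact ⟨p, (S.mem_EE m p).mpr ⟨s, by omega, hps⟩, hxp⟩
  · intro x hx
    show E2 (d x) * χ x = 0
    have e1 : δ / 2 ≤ Metric.infDist x (S.EE m : Set W) := by
      by_contra hlt
      push Not at hlt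
      obtain ⟨p, hp, hxp⟩ := (Metric.infDist_lt_iff hEne').mp hlt
      rw [dist_eq_norm] at hxp
      exact hx ⟨p, hp, hxp⟩
    have e2 : χ x = 0 := by
      simp only [hχ]
      apply max_eq_left
      refine (min_le_right _ _).trans ?_
      have : 2 / δ * (δ / 2) ≤ 2 / δ * Metric.infDist x (S.EE m : Set W) :=
        mul_le_mul_of_nonneg_left e1 (by positivity)
      have e3 : 2 / δ * (δ / 2) = 1 := by field_simp
      linarith
    rw [e2, mul_zero]
  · have e1 : ∑ k ∈ Finset.Ico n m, S.b k (fun x => E2 (d x) * χ x) =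
        ∑ k ∈ Finset.Ico n m, S.b k (fun x => E2 (d x)) := by
      refine Finset.sum_congr rfl fun k hk => ?_
      apply S.congr
      intro x hx
      have hxm : x ∈ (S.EE m : Set W) := (S.mem_EE m x).mpr ⟨k, (Finset.mem_Ico.mp hk).2, hx⟩
      have : χ x = 1 := by
        simp only [hχ]
        rw [Metric.infDist_zero_of_mem hxm]
        norm_num
      rw [this, mul_one]
    have e2 : ∑ k ∈ Finset.Ico n m, S.b k (fun x => E2 (d x)) = S.s m (fun x => E2 (d x)) := by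
      rw [S.s_apply, Finset.range_eq_Ico, ← Finset.sum_Ico_consecutive _ (Nat.zero_le n) hnm']
      rw [Finset.sum_eq_zero (s := Finset.Ico 0 n) (fun k hk => hbz k (Finset.mem_Ico.mp hk).2), zero_add]
    rw [e1, e2]
    exact hs2

end

end Pool.Agent.Helper81.FreeL1
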