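import Pool.Agent.Helper81.FreeL1.F6

/-! Domination by positive functionals. -/

open Filter Topology

namespace Pool.Agent.Helper81.FreeL1

section

variable {W : Type*} [NormedAddCommGroup W] [NormedSpace ℝ W]

/-- bounded functions -/
def BF (W : Type*) : Submodule ℝ (W → ℝ) where
  carrier := {φ | Bd φ}
  add_mem' := fun ha hb => Bd.add ha hb
  zero_mem' := Bd.const 0
  smul_mem' := fun a _ hφ => Bd.const_mul hφ a

theorem domination (s : (W → ℝ) →ₗ[ℝ] ℝ) (B : ℝ) (hB : 0 ≤ B)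
    (hs : ∀ (L : ℝ) (f : W → ℝ), 0 ≤ L → Lip L f → |s f| ≤ B * L) :
    ∃ Λ : (W → ℝ) →ₗ[ℝ] ℝ, (∀ φ, Bd φ → (∀ x, 0 ≤ φ x) → 0 ≤ Λ φ) ∧ Λ (fun _ => 1) = B ∧
      ∀ g, N1 g → ∀ φ, Bd φ → (∀ x, ‖fderiv ℝ g x‖ ≤ φ x) → s g ≤ Λ φ := by
  let C : PointedCone ℝ (BF W × ℝ) :=
    { carrier := {q | ∃ g : W → ℝ, N1 g ∧ (∀ x, ‖fderiv ℝ g x‖ ≤ (q.1 : W → ℝ) x) ∧ q.2 ≤ s g}
      add_mem' := by
        rintro ⟨φ, t⟩ ⟨φ', t'⟩ ⟨g, hg, h1, h2⟩ ⟨g', hg', h1', h2'⟩
        refine ⟨fun x => g x + g' x, hg.add hg', fun x => ?_, ?_⟩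
        · rw [fderiv_fun_add (hg.1 x) (hg'.1 x)]
          exact (norm_add_le _ _).trans (add_le_add (h1 x) (h1' x))
        · have : s (fun x => g x + g' x) = s g + s g' := by rw [← map_add]; rfl
          rw [this]
          exact add_le_add h2 h2'
      zero_mem' := by
        refine ⟨fun _ => 0, N1.const 0, fun x => by simp, ?_⟩
        have : s (fun _ => 0) = 0 := map_zero s
        rw [this]
        exact le_rfl
      smul_mem' := by
        rintro ⟨a, ha⟩ ⟨φ, t⟩ ⟨g, hg, h1, h2⟩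
        refine ⟨fun x => a * g x, hg.const_mul a, fun x => ?_, ?_⟩
        · rw [fderiv_const_mul (hg.1 x), norm_smul, Real.norm_eq_abs, abs_of_nonneg ha]
          exact mul_le_mul_of_nonneg_left (h1 x) ha
        · have : s (fun x => a * g x) = a * s g := by
            rw [← smul_eq_mul, ← map_smul]; rfl
          rw [this]
          exact mul_le_mul_of_nonneg_left h2 ha }
  have hC : ∀ q : BF W × ℝ, q ∈ C ↔
      ∃ g : W → ℝ, N1 g ∧ (∀ x, ‖fderiv ℝ g x‖ ≤ (q.1 : W → ℝ) x) ∧ q.2 ≤ s g := fun q => Iff.rfl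
  let ℓ : (BF W × ℝ) →ₗ[ℝ] ℝ :=
    { toFun := fun q => B * (q.1 : W → ℝ) 0 - q.2
      map_add' := fun p q => by
        simp only [Prod.fst_add, Prod.snd_add, Submodule.coe_add, Pi.add_apply]; ring
      map_smul' := fun a q => by
        simp only [Prod.smul_fst, Prod.smul_snd, Submodule.coe_smul, Pi.smul_apply, smul_eq_mul,
          RingHom.id_apply]; ring }
  let P : Submodule ℝ (BF W × ℝ) :=
    { carrier := {q | ∀ x, (q.1 : W → ℝ) x = (q.1 : W → ℝ) 0}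
      add_mem' := fun {p q} hp hq x => by
        simp only [Prod.fst_add, Submodule.coe_add, Pi.add_apply]
        rw [hp x, hq x]
      zero_mem' := fun x => rfl
      smul_mem' := fun a q hq x => by
        simp only [Prod.smul_fst, Submodule.coe_smul, Pi.smul_apply]
        rw [hq x] }
  obtain ⟨G, hG1, hG2⟩ := riesz_extension C (ℓ.toPMap P) (by
    rintro ⟨q, hq⟩ hqC
    obtain ⟨g, hg, h1, h2⟩ := (hC q).mp hqC
    rw [LinearMap.toPMap_apply]
    show 0 ≤ B * (q.1 : W → ℝ) 0 - q.2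
    have h3 : ∀ x, ‖fderiv ℝ g x‖ ≤ (q.1 : W → ℝ) 0 := fun x => by
      rw [← hq x]; exact h1 x
    have h4 := hs _ g ((norm_nonneg _).trans (h3 0)) (lip_of_fderiv hg.1 h3)
    have h5 := le_abs_self (s g)
    linarith) (by
    rintro ⟨φ, t⟩
    obtain ⟨A, hA0, hA⟩ : Bd (φ : W → ℝ) := φ.2
    refine ⟨⟨(⟨fun _ => A, Bd.const A⟩, -t), fun x => rfl⟩, ?_⟩
    refine (hC _).mpr ⟨fun _ => 0, N1.const 0, fun x => ?_, ?_⟩
    · have h1 := (abs_le.mp (hA x)).1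
      have h2 : fderiv ℝ (fun _ : W => (0 : ℝ)) x = 0 := by simp
      rw [h2, norm_zero]
      show 0 ≤ A + (φ : W → ℝ) x
      linarith
    · have : s (fun _ => 0) = 0 := map_zero s
      rw [this]
      show -t + t ≤ 0
      linarith)
  obtain ⟨Λ, hΛ⟩ := LinearMap.exists_extend (p := BF W) (G.comp (LinearMap.inl ℝ (BF W) ℝ))
  have hΛ' : ∀ (φ : W → ℝ) (h : Bd φ), Λ φ = G (⟨φ, h⟩, 0) := fun φ h => by
    have := LinearMap.congr_fun hΛ ⟨φ, h⟩
    exact this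
  have hG01 : G ((0 : BF W), (1 : ℝ)) = -1 := by
    have := hG1 ⟨((0 : BF W), (1 : ℝ)), fun x => rfl⟩
    rw [LinearMap.toPMap_apply] at this
    refine this.trans ?_
    show B * 0 - 1 = -1
    ring
  refine ⟨Λ, ?_, ?_, ?_⟩
  · intro φ hφ h0
    rw [hΛ' φ hφ]
    apply hG2
    refine (hC _).mpr ⟨fun _ => 0, N1.const 0, fun x => ?_, ?_⟩
    · have h2 : fderiv ℝ (fun _ : W => (0 : ℝ)) x = 0 := by simp
      rw [h2, norm_zero]
      exact h0 x
    · have : s (fun _ => 0) = 0 := map_zero s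
      rw [this]
  · rw [hΛ' _ (Bd.const 1)]
    have := hG1 ⟨((⟨fun _ => 1, Bd.const 1⟩ : BF W), (0 : ℝ)), fun x => rfl⟩
    rw [LinearMap.toPMap_apply] at this
    refine this.trans ?_
    show B * 1 - 0 = B
    ring
  · intro g hg φ hφ h1
    rw [hΛ' φ hφ]
    have h2 := hG2 ((⟨φ, hφ⟩ : BF W), s g) ((hC _).mpr ⟨g, hg, h1, le_rfl⟩)
    have h3 : ((⟨φ, hφ⟩ : BF W), s g) = (((⟨φ, hφ⟩ : BF W), (0 : ℝ)) : BF W × ℝ) + (s g) • ((0 : BF W), (1 : ℝ)) := by
      ext <;> simp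
    rw [h3, map_add, map_smul, hG01, smul_eq_mul] at h2
    linarith

end

end Pool.Agent.Helper81.FreeL1
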