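import Pool.Agent.Helper81.FreeL1.F7

/-! The limit functional and almost minimisers. -/

open Filter Topology

namespace Pool.Agent.Helper81.FreeL1

section

variable {W : Type*} [NormedAddCommGroup W] [NormedSpace ℝ W]

/-- positive functionals dominating the partial sums, and their limit -/
structure Dom (S : Sys W) where
  Λm : ℕ → (W → ℝ) →ₗ[ℝ] ℝ
  Λ : (W → ℝ) → ℝ
  pos_m : ∀ m φ, Bd φ → (∀ x, 0 ≤ φ x) → 0 ≤ Λm m φ
  one_m : ∀ m, Λm m (fun _ => 1) = S.B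
  dom_m : ∀ m g, N1 g → ∀ φ, Bd φ → (∀ x, ‖fderiv ℝ g x‖ ≤ φ x) → S.s m g ≤ Λm m φ
  add : ∀ φ ψ, Bd φ → Bd ψ → Λ (fun x => φ x + ψ x) = Λ φ + Λ ψ
  mul : ∀ a φ, Bd φ → Λ (fun x => a * φ x) = a * Λ φ
  pos : ∀ φ, Bd φ → (∀ x, 0 ≤ φ x) → 0 ≤ Λ φ
  one : Λ (fun _ => 1) = S.B
  freq : ∀ φ θ, Bd φ → Λ φ < θ → ∃ᶠ m in atTop, Λm m φ < θ

theorem exists_dom (S : Sys W) : Nonempty (Dom S) := by
  have h0 : ∀ m, ∃ Λ : (W → ℝ) →ₗ[ℝ] ℝ, (∀ φ, Bd φ → (∀ x, 0 ≤ φ x) → 0 ≤ Λ φ) ∧ Λ (fun _ => 1) = S.B ∧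
      ∀ g, N1 g → ∀ φ, Bd φ → (∀ x, ‖fderiv ℝ g x‖ ≤ φ x) → S.s m g ≤ Λ φ := fun m =>
    domination (S.s m) S.B S.B_nonneg (fun L f hL hf => S.s_bound m L f hL hf)
  choose Λm h1 h2 h3 using h0
  have hlim : ∀ φ : W → ℝ, ∃ y, Bd φ → Tendsto (fun m => Λm m φ) (hyperfilter ℕ : Filter ℕ) (𝓝 y) := by
    intro φ
    by_cases hφ : Bd φ
    · have hφ' := hφ
      obtain ⟨A, hA0, hA⟩ := hφ'
      have hb : ∀ m, Λm m φ ∈ Set.Icc (-(A * S.B)) (A * S.B) := by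
        intro m
        have e1 : Λm m (fun _ => A) = A * S.B := by
          rw [← h2 m, ← smul_eq_mul, ← map_smul]
          congr 1
          funext x
          simp
        have e2 := h1 m ((fun _ => A) + φ) ((Bd.const A).add hφ) (fun x => by
          have := (abs_le.mp (hA x)).1
          show 0 ≤ A + φ x
          linarith)
        have e3 := h1 m ((fun _ => A) - φ) ((Bd.const A).sub hφ) (fun x => by
          have := (abs_le.mp (hA x)).2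
          show 0 ≤ A - φ x
          linarith)
        rw [map_add, e1] at e2
        rw [map_sub, e1] at e3
        constructor <;> linarith
      obtain ⟨y, _, hy⟩ := (isCompact_Icc : IsCompact (Set.Icc (-(A * S.B)) (A * S.B))).ultrafilter_le_nhds
        ((hyperfilter ℕ).map (fun m => Λm m φ)) (by
          rw [le_principal_iff]
          exact Filter.mem_map.mpr (Filter.univ_mem' hb))
      exact ⟨y, fun _ => hy⟩
    · exact ⟨0, fun h => absurd h hφ⟩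
  choose Λ hΛ using hlim
  refine ⟨⟨Λm, Λ, h1, h2, h3, ?_, ?_, ?_, ?_, ?_⟩⟩
  · intro φ ψ hφ hψ
    refine tendsto_nhds_unique (hΛ _ (hφ.add hψ)) ?_
    have := (hΛ φ hφ).add (hΛ ψ hψ)
    refine this.congr fun m => ?_
    rw [← map_add]; rfl
  · intro a φ hφ
    refine tendsto_nhds_unique (hΛ _ (hφ.const_mul a)) ?_
    have := (hΛ φ hφ).const_mul a
    refine this.congr fun m => ?_
    rw [← smul_eq_mul, ← map_smul]; rfl
  · intro φ hφ hpos
    exact ge_of_tendsto (hΛ φ hφ) (Eventually.of_forall fun m => h1 m φ hφ hpos)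
  · refine tendsto_nhds_unique (hΛ _ (Bd.const 1)) ?_
    refine tendsto_const_nhds.congr fun m => (h2 m).symm
  · intro φ θ hφ hθ
    have e1 : ∀ᶠ m in (hyperfilter ℕ : Filter ℕ), Λm m φ < θ := (hΛ φ hφ).eventually_lt_const hθ
    have e2 : ∃ᶠ m in (hyperfilter ℕ : Filter ℕ), Λm m φ < θ := e1.frequently
    exact e2.filter_mono (by
      rw [← Nat.cofinite_eq_atTop]
      exact hyperfilter_le_cofinite)

/-- monotonicity -/
lemma Dom.mono {S : Sys W} (P : Dom S) {φ ψ : W → ℝ} (hφ : Bd φ) (hψ : Bd ψ) (h : ∀ x, φ x ≤ ψ x) :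
    P.Λ φ ≤ P.Λ ψ := by
  have e1 := P.add φ (fun x => ψ x - φ x) hφ (hψ.sub hφ)
  have e2 := P.pos (fun x => ψ x - φ x) (hψ.sub hφ) (fun x => sub_nonneg.mpr (h x))
  have e3 : (fun x => φ x + (ψ x - φ x)) = ψ := by funext x; ring
  rw [e3] at e1
  linarith

/-- monotonicity -/
lemma Dom.mono_m {S : Sys W} (P : Dom S) (m : ℕ) {φ ψ : W → ℝ} (hφ : Bd φ) (hψ : Bd ψ) (h : ∀ x, φ x ≤ ψ x) :
    P.Λm m φ ≤ P.Λm m ψ := by
  have e2 := P.pos_m m (ψ - φ) (hψ.sub hφ) (fun x => sub_nonneg.mpr (h x))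
  rw [map_sub] at e2
  linarith

/-- energy of the first `J` partial derivatives -/
noncomputable def Dom.Q {S : Sys W} (P : Dom S) (c : Coord W) (J : ℕ) (g : W → ℝ) : ℝ :=
  P.Λ (fun x => ∑ j ∈ Finset.range J, (c.D g j x) ^ 2)

lemma bd_energy (c : Coord W) {g : W → ℝ} (hg : N1 g) (J : ℕ) :
    Bd (fun x => ∑ j ∈ Finset.range J, (c.D g j x) ^ 2) := by
  refine Bd.sum _ fun j _ => ?_
  have h := hg.Bd_D c j
  simpa [sq] using h.mul h

lemma Dom.parallelogram {S : Sys W} (P : Dom S) (c : Coord W) (J : ℕ) {f g : W → ℝ} (hf : N1 f) (hg : N1 g) :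
    P.Q c J (fun x => f x - g x) + 4 * P.Q c J (fun x => 1 / 2 * (f x + g x)) =
      2 * P.Q c J f + 2 * P.Q c J g := by
  have hd : N1 (fun x => f x - g x) := hf.sub hg
  have hm : N1 (fun x => 1 / 2 * (f x + g x)) := (hf.add hg).const_mul _
  unfold Dom.Q
  rw [← P.mul 4 _ (bd_energy c hm J), ← P.mul 2 _ (bd_energy c hf J), ← P.mul 2 _ (bd_energy c hg J),
    ← P.add _ _ (bd_energy c hd J) ((bd_energy c hm J).const_mul 4),
    ← P.add _ _ ((bd_energy c hf J).const_mul 2) ((bd_energy c hg J).const_mul 2)]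
  congr 1
  funext x
  rw [Finset.mul_sum, Finset.mul_sum, Finset.mul_sum, ← Finset.sum_add_distrib, ← Finset.sum_add_distrib]
  refine Finset.sum_congr rfl fun j _ => ?_
  have e1 : c.D (fun x => f x - g x) j x = c.D f j x - c.D g j x := by
    unfold Coord.D
    rw [fderiv_fun_sub (hf.1 x) (hg.1 x)]; rfl
  have e2 : c.D (fun x => 1 / 2 * (f x + g x)) j x = 1 / 2 * (c.D f j x + c.D g j x) := by
    rw [c.D_const_mul (hf.add hg).1, c.D_add hf.1 hg.1]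
  rw [e1, e2]
  ring

lemma Dom.Q_nonneg {S : Sys W} (P : Dom S) (c : Coord W) (J : ℕ) {g : W → ℝ} (hg : N1 g) : 0 ≤ P.Q c J g :=
  P.pos _ (bd_energy c hg J) fun x => Finset.sum_nonneg fun j _ => sq_nonneg _

lemma almost_min {V : Type*} (G : ℕ → Set V) (q : V → ℝ) (hq : ∀ n, ∀ v ∈ G n, 0 ≤ q v) (C : ℝ)
    (hC : ∀ n, ∀ v ∈ G n, q v ≤ C) (anti : ∀ n m, n ≤ m → G m ⊆ G n) (ne : ∀ n, (G n).Nonempty)
    {ε : ℝ} (hε : 0 < ε) (n₁ : ℕ) : ∃ n, n₁ ≤ n ∧ ∃ v ∈ G n, ∀ n', n ≤ n' → ∃ v' ∈ G n',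
      ∀ w ∈ G n, q v ≤ q w + ε ∧ q v' ≤ q w + ε := by
  set α : ℕ → ℝ := fun n => sInf (q '' G n) with hα
  have hbdd : ∀ n, BddBelow (q '' G n) := fun n => ⟨0, by
    rintro _ ⟨v, hv, rfl⟩
    exact hq n v hv⟩
  have hne : ∀ n, (q '' G n).Nonempty := fun n => (ne n).image q
  have hmono : ∀ n m, n ≤ m → α n ≤ α m := fun n m h =>
    csInf_le_csInf (hbdd n) (hne m) (Set.image_mono (anti n m h))
  have hub : ∀ n, α n ≤ C := by
    intro n
    obtain ⟨v, hv⟩ := ne n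
    exact (csInf_le (hbdd n) ⟨v, hv, rfl⟩).trans (hC n v hv)
  have hB : BddAbove (Set.range α) := ⟨C, by rintro _ ⟨n, rfl⟩; exact hub n⟩
  obtain ⟨_, ⟨n₀, rfl⟩, hn₀⟩ := exists_lt_of_lt_csSup (Set.range_nonempty α)
    (show sSup (Set.range α) - ε / 2 < sSup (Set.range α) by linarith)
  set n := max n₀ n₁
  have h1 : ∀ n', α n' ≤ α n + ε / 2 := by
    intro n'
    have e1 : α n' ≤ sSup (Set.range α) := le_csSup hB ⟨n', rfl⟩
    have e2 : α n₀ ≤ α n := hmono _ _ (le_max_left _ _)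
    linarith
  have h2 : ∀ n', ∃ v ∈ G n', q v < α n' + ε / 2 := by
    intro n'
    obtain ⟨_, ⟨v, hv, rfl⟩, hlt⟩ := exists_lt_of_csInf_lt (hne n')
      (show sInf (q '' G n') < α n' + ε / 2 by simp only [hα]; linarith)
    exact ⟨v, hv, hlt⟩
  obtain ⟨v, hv, hqv⟩ := h2 n
  refine ⟨n, le_max_right _ _, v, hv, fun n' _ => ?_⟩
  obtain ⟨v', hv', hqv'⟩ := h2 n'
  refine ⟨v', hv', fun w hw => ?_⟩
  have e1 : α n ≤ q w := csInf_le (hbdd n) ⟨w, hw, rfl⟩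
  have e2 := h1 n'
  constructor <;> linarith

lemma Good.anti {S : Sys W} {c : Coord W} {a K : ℝ} {n m : ℕ} (h : n ≤ m) : Good S c a K m ⊆ Good S c a K n := by
  rintro g ⟨h1, h2, h3, h4, h5⟩
  refine ⟨h1, h2, fun s hs x hx => ?_, h4, fun k hk => h5 k (hk.trans h)⟩
  exact (h3 s (lt_of_lt_of_le hs h) x hx).trans
    (pow_le_pow_of_le_one (by norm_num) (by norm_num) h)

lemma Good.mid {S : Sys W} {c : Coord W} {a K : ℝ} {n : ℕ} {f g : W → ℝ} (hf : f ∈ Good S c a K n)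
    (hg : g ∈ Good S c a K n) : (fun x => 1 / 2 * (f x + g x)) ∈ Good S c a K n := by
  obtain ⟨⟨J, h1⟩, h2, h3, h4, h5⟩ := hf
  obtain ⟨⟨J', h1'⟩, h2', h3', h4', h5'⟩ := hg
  have hmid : ∀ (T : (W → ℝ) →ₗ[ℝ] ℝ), T (fun x => 1 / 2 * (f x + g x)) = 1 / 2 * (T f + T g) := fun T => by
    rw [← map_add, ← smul_eq_mul, ← map_smul]; rfl
  have habs : ∀ {u v B : ℝ}, |u| ≤ B → |v| ≤ B → |1 / 2 * (u + v)| ≤ B := by
    intro u v B hu hv
    rw [abs_mul, abs_of_pos (by norm_num : (0 : ℝ) < 1 / 2)]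
    have := abs_add_le u v
    linarith
  refine ⟨⟨max J J', (h1.1.add h1'.1).const_mul _, fun x => ?_, ?_⟩, ?_, ?_, ?_, ?_⟩
  · have e1 : fderiv ℝ (fun x => 1 / 2 * (f x + g x)) x = (1 / 2 : ℝ) • (fderiv ℝ f x + fderiv ℝ g x) := by
      have hadd : DifferentiableAt ℝ (fun x => f x + g x) x := (h1.1.1.1 x).add (h1'.1.1.1 x)
      rw [fderiv_const_mul hadd, fderiv_fun_add (h1.1.1.1 x) (h1'.1.1.1 x)]
    rw [e1, norm_smul, Real.norm_eq_abs, abs_of_pos (by norm_num : (0 : ℝ) < 1 / 2)]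
    have e2 := norm_add_le (fderiv ℝ f x) (fderiv ℝ g x)
    have e3 := h1.2.1 x
    have e4 := h1'.2.1 x
    linarith
  · exact (h1.2.2.mono (le_max_left _ _)).comp2 (h1'.2.2.mono (le_max_right _ _)) (fun a b => 1 / 2 * (a + b))
  · exact fun x => habs (h2 x) (h2' x)
  · exact fun s hs x hx => habs (h3 s hs x hx) (h3' s hs x hx)
  · filter_upwards [h4, h4'] with m e1 e2
    rw [hmid]
    linarith
  · intro m hm
    rw [hmid]
    exact habs (h5 m hm) (h5' m hm)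

theorem energy_small {S : Sys W} (P : Dom S) (c : Coord W) {a K : ℝ}
    (hne : ∀ n, (Good S c a K n).Nonempty) (J : ℕ) {η : ℝ} (hη : 0 < η) (n₁ : ℕ) :
    ∃ n, n₁ ≤ n ∧ ∃ g ∈ Good S c a K n, ∀ n', n ≤ n' → ∃ g' ∈ Good S c a K n',
      P.Q c J (fun x => g x - g' x) ≤ η := by
  obtain ⟨n, hn, g, hg, hg'⟩ := almost_min (fun n => Good S c a K n) (fun g => P.Q c J g)
    (fun n g hg => by
      obtain ⟨⟨J', hJ'⟩, _⟩ := hg
      exact P.Q_nonneg c J hJ'.1.1) (J * 4 * S.B)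
    (fun n g hg => by
      obtain ⟨⟨J', hJ'⟩, _⟩ := hg
      have e1 : P.Q c J g ≤ P.Λ (fun _ => J * 4 * 1) := by
        apply P.mono (bd_energy c hJ'.1.1 J) (Bd.const _)
        intro x
        have e2 : ∀ j ∈ Finset.range J, (c.D g j x) ^ 2 ≤ 4 := by
          intro j _
          have e3 : |c.D g j x| ≤ 2 := (c.D_abs_le g j x).trans (hJ'.2.1 x)
          rw [← sq_abs]
          nlinarith [abs_nonneg (c.D g j x)]
        have e4 := Finset.sum_le_sum e2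
        simp only [Finset.sum_const, Finset.card_range, nsmul_eq_mul] at e4
        linarith
      rw [P.mul _ _ (Bd.const 1), P.one] at e1
      exact e1)
    (fun n m h => Good.anti h) hne (show 0 < η / 4 by linarith) n₁
  refine ⟨n, hn, g, hg, fun n' hn' => ?_⟩
  obtain ⟨g', hg'1, hg'2⟩ := hg' n' hn'
  refine ⟨g', hg'1, ?_⟩
  obtain ⟨e1, e2⟩ := hg'2 _ (Good.mid hg (Good.anti hn' hg'1))
  have hgN : N1 g := by
    obtain ⟨⟨J', hJ'⟩, _⟩ := hg
    exact hJ'.1.1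
  have hgN' : N1 g' := by
    obtain ⟨⟨J', hJ'⟩, _⟩ := hg'1
    exact hJ'.1.1
  have e3 := P.parallelogram c J hgN hgN'
  linarith

end

end Pool.Agent.Helper81.FreeL1
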