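import Pool.Agent.Helper81.FreeL1.F8

/-! The main construction. -/

open Filter Topology

namespace Pool.Agent.Helper81.FreeL1

lemma sqpos_hasDerivAt (t : ℝ) : HasDerivAt (fun s : ℝ => (max s 0) ^ 2) (2 * max t 0) t := by
  refine hasDerivAt_of_hasDerivAt_of_ne' (f := fun s : ℝ => (max s 0) ^ 2) (g := fun s => 2 * max s 0) (x := 0) ?_ ?_ ?_ t
  · intro y hy
    rcases lt_or_gt_of_ne hy with h | h
    · have e1 : HasDerivAt (fun _ : ℝ => (0 : ℝ)) 0 y := hasDerivAt_const y 0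
      rw [max_eq_right h.le, mul_zero]
      refine e1.congr_of_eventuallyEq ?_
      filter_upwards [Iio_mem_nhds h] with s hs
      rw [max_eq_right (le_of_lt hs)]
      norm_num
    · have e1 : HasDerivAt (fun s : ℝ => s ^ 2) (2 * y) y := by
        simpa using hasDerivAt_pow 2 y
      rw [max_eq_left h.le]
      refine e1.congr_of_eventuallyEq ?_
      filter_upwards [Ioi_mem_nhds h] with s hs
      rw [max_eq_left (le_of_lt hs)]
  · fun_prop
  · fun_prop

lemma cut_hasDerivAt (t : ℝ) : HasDerivAt (fun s : ℝ => (max (1 - s) 0) ^ 2) (-(2 * max (1 - t) 0)) t := by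
  have h1 : HasDerivAt (fun s : ℝ => 1 - s) (-1) t := by
    simpa using (hasDerivAt_id t).const_sub 1
  have h2 := (sqpos_hasDerivAt (1 - t)).comp t h1
  have h3 : 2 * max (1 - t) 0 * (-1) = -(2 * max (1 - t) 0) := by ring
  rw [h3] at h2
  exact h2

lemma ev_small (M r : ℝ) (hr : 0 < r) : ∀ᶠ κ in 𝓝[>] (0 : ℝ), κ * M ≤ r := by
  have h1 : Tendsto (fun κ : ℝ => κ * M) (𝓝[>] 0) (𝓝 (0 * M)) :=
    (continuous_id.mul continuous_const).tendsto 0 |>.mono_left nhdsWithin_le_nhds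
  rw [zero_mul] at h1
  exact h1.eventually_le_const hr

section

variable {W : Type*} [NormedAddCommGroup W] [NormedSpace ℝ W]

lemma N1.comp' {ψ ψ' : ℝ → ℝ} (h : ∀ t, HasDerivAt ψ (ψ' t) t) {f : W → ℝ}
    (hf : N1 f) (hb : Bd (fun x => ψ' (f x))) : N1 (fun x => ψ (f x)) := by
  obtain ⟨h1, C, h0, h2⟩ := hf
  obtain ⟨A, hA0, hA⟩ := hb
  refine ⟨fun x => (fderiv_comp_real h (h1 x)).differentiableAt, A * C, by positivity, fun x => ?_⟩
  rw [(fderiv_comp_real h (h1 x)).fderiv, norm_smul, Real.norm_eq_abs]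
  exact mul_le_mul (hA _) (h2 x) (norm_nonneg _) hA0

lemma Sys.s_small (S : Sys W) (m : ℕ) (f : W → ℝ) (δ : ℝ) (hδ : 0 ≤ δ) (hf : ∀ x, |f x| ≤ δ) :
    |S.s m f| ≤ (∑ k ∈ Finset.range m, S.V k) * δ := by
  rw [S.s_apply, Finset.sum_mul]
  refine (Finset.abs_sum_le_sum_abs _ _).trans (Finset.sum_le_sum fun k _ => ?_)
  exact S.small k f δ hδ fun x _ => hf x

/-- state of the construction -/
def St (S : Sys W) (c : Coord W) (P : Dom S) (a : ℝ) (N : ℕ) : Prop :=
  ∃ (F φ : W → ℝ) (T : Finset ℕ) (σ : ℕ → ℝ) (J m : ℕ),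
    (∀ k ∈ T, k < m) ∧ (∀ k, |σ k| ≤ 1) ∧ N1 F ∧ c.Cyl J F ∧ N1 φ ∧ c.Cyl J φ ∧
    (∀ x, 0 ≤ φ x ∧ φ x ≤ 1) ∧ P.Λ (fun x => 1 - φ x) < a / 256 ∧
    (∀ x j, |c.D F j x| ≤ (1 - (1 / 2) ^ N) + (if j < J then 4 else 0) + (if φ x = 0 then 4 else 0)) ∧
    N * (a / 16) ≤ ∑ k ∈ T, σ k * S.b k F

/-- small scale truncation -/
lemma trunc_nice {c : Coord W} {κ : ℝ} (hκ : 0 < κ) {d : W → ℝ} (hd : c.N2 d) :
    c.N2 (fun x => κ * Real.sin (d x / κ)) ∧
    ∀ j x, c.D (fun x => κ * Real.sin (d x / κ)) j x = Real.cos (d x / κ) * c.D d j x := by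
  have h1 : ∀ t, HasDerivAt (fun u : ℝ => κ * Real.sin (u / κ)) (Real.cos (t / κ)) t := by
    intro t
    have h1 : HasDerivAt (fun u : ℝ => u / κ) (1 / κ) t := (hasDerivAt_id t).div_const κ
    have h2 := ((Real.hasDerivAt_sin (t / κ)).comp t h1).const_mul κ
    have h4 : κ * (Real.cos (t / κ) * (1 / κ)) = Real.cos (t / κ) := by
      field_simp
    rw [h4] at h2
    exact h2
  have h2 : ∀ t, HasDerivAt (fun u : ℝ => Real.cos (u / κ)) (-Real.sin (t / κ) * (1 / κ)) t := by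
    intro t
    have h1 : HasDerivAt (fun u : ℝ => u / κ) (1 / κ) t := (hasDerivAt_id t).div_const κ
    exact (Real.hasDerivAt_cos (t / κ)).comp t h1
  refine ⟨hd.comp h1 h2 ⟨1, zero_le_one, fun t => Real.abs_cos_le_one _⟩ ⟨1 / κ, by positivity, fun t => ?_⟩,
    fun j x => ?_⟩
  · rw [abs_mul, abs_neg, abs_of_pos (by positivity : (0 : ℝ) < 1 / κ)]
    have := Real.abs_sin_le_one (t / κ)
    have h0 : 0 < 1 / κ := by positivity
    nlinarith
  · exact c.D_comp h1 hd.1.1 j x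

theorem step (S : Sys W) (c : Coord W) (P : Dom S) {a K : ℝ} (ha : 0 < a)
    (hne : ∀ n, (Good S c a K n).Nonempty) (N : ℕ) (hN : St S c P a N) : St S c P a (N + 1) := by
  obtain ⟨F, φ, T, σ, J, m, hT, hσ, hF, hFJ, hφ, hφJ, hφ01, hφΛ, hD, hsum⟩ := hN
  obtain ⟨hφd, Pφ, hPφ0, hPφ⟩ := id hφ
  have hφB : Bd φ := ⟨1, zero_le_one, fun x => by
    rw [abs_of_nonneg (hφ01 x).1]; exact (hφ01 x).2⟩
  have hφB' : Bd (fun x => 1 - φ x) := (Bd.const 1).sub hφB
  set V := ∑ k ∈ Finset.range m, S.V k with hV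
  set ε : ℝ := (1 / 2) ^ (N + 2) with hε
  have hε0 : 0 < ε := by positivity
  -- choose κ
  obtain ⟨κ, ⟨⟨hκ1, hκ2⟩, hκ3⟩, hκ⟩ := ((((ev_small Pφ ε hε0).and (ev_small (Pφ * S.B) (a / 64) (by positivity))).and
    (ev_small V (a / 16) (by positivity))).and (self_mem_nhdsWithin)).exists
  replace hκ : 0 < κ := hκ
  obtain ⟨n₀, hn₀⟩ := tlemma S c a ha K hκ
  set η : ℝ := (a / 256 - P.Λ (fun x => 1 - φ x)) * ε ^ 2 / 4 with hη
  have hη0 : 0 < η := by
    have : 0 < a / 256 - P.Λ (fun x => 1 - φ x) := by linarith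
    positivity
  obtain ⟨n, hn, g, hg, hgn⟩ := energy_small P c hne J hη0 n₀
  obtain ⟨m', hm'1, hm'2, hm'3⟩ := ((P.freq _ _ hφB' hφΛ).and_eventually
    (hg.2.2.2.1.and (eventually_ge_atTop m))).exists
  obtain ⟨g', hg', hQ⟩ := hgn (max n m') (le_max_left _ _)
  have hg'n : g' ∈ Good S c a K n := Good.anti (le_max_left _ _) hg'
  have hT1 := hn₀ n hn g hg g' hg'n m'
  have hsg' : |S.s m' g'| ≤ a / 64 := hg'.2.2.2.2 m' (le_max_right _ _)
  obtain ⟨Jg, hJg⟩ := hg.1
  obtain ⟨Jg', hJg'⟩ := hg'.1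
  set d : W → ℝ := fun x => g x - g' x with hd
  have hdN : c.N2 d := hJg.1.sub hJg'.1
  have hdD : ∀ x, ‖fderiv ℝ d x‖ ≤ 4 := by
    intro x
    have e1 : fderiv ℝ d x = fderiv ℝ g x - fderiv ℝ g' x := fderiv_fun_sub (hJg.1.1.1 x) (hJg'.1.1.1 x)
    rw [e1]
    have := norm_sub_le (fderiv ℝ g x) (fderiv ℝ g' x)
    have := hJg.2.1 x
    have := hJg'.2.1 x
    linarith
  set Jd := max Jg Jg' with hJd
  have hdJ : c.Cyl Jd d := (hJg.2.2.mono (le_max_left _ _)).comp2 (hJg'.2.2.mono (le_max_right _ _)) (fun a b => a - b)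
  -- truncation
  obtain ⟨dc, hdc⟩ : ∃ dc : W → ℝ, dc = fun x => κ * Real.sin (d x / κ) := ⟨_, rfl⟩
  obtain ⟨hdcN, hdcD⟩ := trunc_nice hκ hdN
  rw [← hdc] at hdcN hdcD
  have hdcκ : ∀ x, |dc x| ≤ κ := by
    intro x
    simp only [hdc]
    rw [abs_mul, abs_of_pos hκ]
    have := Real.abs_sin_le_one (d x / κ)
    nlinarith
  have hdcB : Bd dc := ⟨κ, hκ.le, hdcκ⟩
  have hdcDle : ∀ j x, |c.D dc j x| ≤ |c.D d j x| := by
    intro j x
    rw [hdcD j x, abs_mul]
    have := Real.abs_cos_le_one (d x / κ)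
    have := abs_nonneg (c.D d j x)
    nlinarith
  have hdc4 : ∀ j x, |c.D dc j x| ≤ 4 := fun j x =>
    (hdcDle j x).trans ((c.D_abs_le d j x).trans (hdD x))
  have hdc4' : ∀ x, ‖fderiv ℝ dc x‖ ≤ 4 := fun x => c.norm_fderiv_le dc x fun j => hdc4 j x
  have hdcJ : c.Cyl Jd dc := fun x y hxy => by
    simp only [hdc]
    rw [hdJ x y hxy]
  -- the new piece
  obtain ⟨f, hf⟩ : ∃ f : W → ℝ, f = fun x => dc x * φ x := ⟨_, rfl⟩
  have hfN : N1 f := by rw [hf]; exact hdcN.1.mul hφ hdcB hφB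
  have hfD : ∀ j x, |c.D f j x| ≤ κ * Pφ + φ x * |c.D dc j x| := by
    intro j x
    simp only [hf]
    rw [c.D_mul hdcN.1.1 hφd]
    refine (abs_add_le _ _).trans ?_
    rw [abs_mul, abs_mul, abs_of_nonneg (hφ01 x).1]
    have e1 : |c.D φ j x| ≤ Pφ := (c.D_abs_le φ j x).trans (hPφ x)
    have e2 := hdcκ x
    have e3 : |dc x| * |c.D φ j x| ≤ κ * Pφ := mul_le_mul e2 e1 (abs_nonneg _) hκ.le
    linarith
  -- values of the functionals
  have hs1 : a / 4 - a / 32 - a / 16 ≤ S.s m' dc := by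
    have e1 : dc = (g - g') - (fun x => Ef κ (g x - g' x)) := by
      funext x
      simp only [hdc, hd, Ef, Pi.sub_apply]
      ring
    rw [e1, map_sub, map_sub]
    have := (abs_le.mp hT1).2
    have := (abs_le.mp hsg').2
    linarith
  have hs2 : S.s m' (fun x => dc x * (1 - φ x)) ≤ a / 64 + a / 64 := by
    have e1 : N1 (fun x => 1 - φ x) := (N1.const 1).sub hφ
    have e2 : N1 (fun x => dc x * (1 - φ x)) := hdcN.1.mul e1 hdcB hφB'
    have e3 := P.dom_m m' _ e2 ((fun x => 4 * (1 - φ x)) + (fun _ => κ * Pφ))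
      ((hφB'.const_mul 4).add (Bd.const _)) (by
      intro x
      have e4 : fderiv ℝ (fun x => 1 - φ x) x = - fderiv ℝ φ x := by
        rw [fderiv_const_sub]
      rw [fderiv_mul_apply (hdcN.1.1 x) (e1.1 x), e4]
      refine (norm_add_le _ _).trans ?_
      rw [norm_smul, norm_smul, norm_neg, Real.norm_eq_abs, Real.norm_eq_abs,
        abs_of_nonneg (by linarith [(hφ01 x).2] : 0 ≤ 1 - φ x)]
      have e5 : |dc x| * ‖fderiv ℝ φ x‖ ≤ κ * Pφ := mul_le_mul (hdcκ x) (hPφ x) (norm_nonneg _) hκ.le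
      have e6 : (1 - φ x) * ‖fderiv ℝ dc x‖ ≤ (1 - φ x) * 4 :=
        mul_le_mul_of_nonneg_left (hdc4' x) (by linarith [(hφ01 x).2])
      show |dc x| * ‖fderiv ℝ φ x‖ + (1 - φ x) * ‖fderiv ℝ dc x‖ ≤ 4 * (1 - φ x) + κ * Pφ
      linarith)
    rw [map_add] at e3
    have e7 : P.Λm m' (fun x => 4 * (1 - φ x)) = 4 * P.Λm m' (fun x => 1 - φ x) := by
      rw [← smul_eq_mul, ← map_smul]; rfl
    have e8 : P.Λm m' (fun _ => κ * Pφ) = κ * Pφ * S.B := by
      rw [← P.one_m m', ← smul_eq_mul (κ * Pφ), ← map_smul]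
      congr 1
      funext x
      simp
    rw [e7, e8] at e3
    have : κ * Pφ * S.B = κ * (Pφ * S.B) := by ring
    linarith
  have hs3 : a / 8 ≤ S.s m' f := by
    have e1 : f = dc - (fun x => dc x * (1 - φ x)) := by
      funext x
      simp only [hf, Pi.sub_apply]
      ring
    rw [e1, map_sub]
    linarith
  have hfκ : ∀ x, |f x| ≤ κ := by
    intro x
    simp only [hf]
    rw [abs_mul, abs_of_nonneg (hφ01 x).1]
    have := hdcκ x
    have h2 := (hφ01 x).2
    have h1 := (hφ01 x).1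
    nlinarith [abs_nonneg (dc x)]
  have hs4 : |S.s m f| ≤ a / 16 := by
    refine (S.s_small m f κ hκ.le hfκ).trans ?_
    rw [mul_comm]; exact hκ3
  set v := ∑ k ∈ Finset.Ico m m', S.b k f with hv
  have hv1 : a / 16 ≤ v := by
    have e1 : S.s m' f = S.s m f + v := by
      rw [S.s_apply, S.s_apply, hv, Finset.range_eq_Ico, Finset.range_eq_Ico,
        Finset.sum_Ico_consecutive _ (Nat.zero_le m) hm'3]
    have := (abs_le.mp hs4).2
    linarith
  obtain ⟨s, τ, hs, hτ, hst⟩ : ∃ s τ : ℝ, (s = 1 ∨ s = -1) ∧ (τ = 1 ∨ τ = -1) ∧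
      a / 16 ≤ s * ∑ k ∈ T, σ k * S.b k f + τ * ∑ k ∈ Finset.Ico m m', S.b k F + s * τ * v := by
    rcases le_total 0 (∑ k ∈ T, σ k * S.b k f + ∑ k ∈ Finset.Ico m m', S.b k F) with hxy | hxy
    · exact ⟨1, 1, Or.inl rfl, Or.inl rfl, by linarith⟩
    · exact ⟨-1, -1, Or.inr rfl, Or.inr rfl, by linarith⟩
  have hsabs : |s| = 1 := by rcases hs with rfl | rfl <;> simp
  have hτabs : |τ| = 1 := by rcases hτ with rfl | rfl <;> simp
  -- the new cut-off
  obtain ⟨En, hEn⟩ : ∃ En : W → ℝ, En = fun x => (ε ^ 2)⁻¹ * ∑ j ∈ Finset.range J, (c.D dc j x) ^ 2 := ⟨_, rfl⟩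
  have hEn0 : ∀ x, 0 ≤ En x := fun x => by
    rw [hEn]
    exact mul_nonneg (by positivity) (Finset.sum_nonneg fun j _ => sq_nonneg _)
  have hEnN : N1 En := by
    rw [hEn]
    refine N1.const_mul (N1.sum _ fun j _ => ?_) _
    have h1 := hdcN.2 j
    have h2 := hdcN.1.Bd_D c j
    simpa [sq] using h1.mul h1 h2 h2
  have hEnB : Bd En := by rw [hEn]; exact (bd_energy c hdcN.1 J).const_mul _
  obtain ⟨μ, hμ⟩ : ∃ μ : W → ℝ, μ = fun x => (max (1 - En x) 0) ^ 2 := ⟨_, rfl⟩
  have hμ0 : ∀ x, 0 ≤ μ x := fun x => by rw [hμ]; exact sq_nonneg _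
  have hμ1 : ∀ x, μ x ≤ 1 := by
    intro x
    have h1 : max (1 - En x) 0 ≤ 1 := max_le (by linarith [hEn0 x]) zero_le_one
    have h2 : 0 ≤ max (1 - En x) 0 := le_max_right _ _
    simp only [hμ]
    nlinarith
  have hμ2 : ∀ x, 1 - μ x ≤ 2 * En x := by
    intro x
    simp only [hμ]
    have h0 := hEn0 x
    rcases le_total (1 - En x) 0 with h | h
    · rw [max_eq_right h]; nlinarith
    · rw [max_eq_left h]; nlinarith
  have hμN : N1 μ := by
   rw [hμ]
   exact hEnN.comp' (ψ := fun s => (max (1 - s) 0) ^ 2) cut_hasDerivAt (by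
    refine ⟨2, zero_le_two, fun x => ?_⟩
    have h1 : max (1 - En x) 0 ≤ 1 := max_le (by linarith [hEn0 x]) zero_le_one
    have h2 : 0 ≤ max (1 - En x) 0 := le_max_right _ _
    rw [abs_neg, abs_of_nonneg (by positivity)]
    linarith)
  have hμB : Bd μ := ⟨1, zero_le_one, fun x => by rw [abs_of_nonneg (hμ0 x)]; exact hμ1 x⟩
  classical
  refine ⟨fun x => F x + s * f x, fun x => φ x * μ x, T ∪ Finset.Ico m m',
    fun k => if k ∈ T then σ k else τ, max J Jd, m', ?_, ?_, ?_, ?_, ?_, ?_, ?_, ?_, ?_, ?_⟩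
  · intro k hk
    rcases Finset.mem_union.mp hk with h | h
    · exact lt_of_lt_of_le (hT k h) hm'3
    · exact (Finset.mem_Ico.mp h).2
  · intro k
    by_cases hk : k ∈ T
    · simpa [hk] using hσ k
    · simp [hk, hτabs]
  · exact hF.add (hfN.const_mul s)
  · intro x y hxy
    have e1 := hFJ x y fun i hi => hxy i (lt_of_lt_of_le hi (le_max_left _ _))
    have e2 := hφJ x y fun i hi => hxy i (lt_of_lt_of_le hi (le_max_left _ _))
    have e3 := hdcJ x y fun i hi => hxy i (lt_of_lt_of_le hi (le_max_right _ _))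
    simp only [hf]
    rw [e1, e2, e3]
  · exact hφ.mul hμN hφB hμB
  · intro x y hxy
    have e2 := hφJ x y fun i hi => hxy i (lt_of_lt_of_le hi (le_max_left _ _))
    have e3 : En x = En y := by
      simp only [hEn]
      congr 1
      refine Finset.sum_congr rfl fun j _ => ?_
      rw [hdcJ.D_cyl j x y fun i hi => hxy i (lt_of_lt_of_le hi (le_max_right _ _))]
    simp only [hμ]
    rw [e2, e3]
  · intro x
    have h1 := hφ01 x
    have h2 := hμ0 x
    have h3 := hμ1 x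
    exact ⟨mul_nonneg h1.1 h2, by nlinarith⟩
  · have e1 : P.Λ (fun x => 1 - φ x * μ x) ≤ P.Λ (fun x => (1 - φ x) + (2 * (ε ^ 2)⁻¹) * ∑ j ∈ Finset.range J, (c.D d j x) ^ 2) := by
      apply P.mono ((Bd.const 1).sub (hφB.mul hμB)) (hφB'.add ((bd_energy c hdN.1 J).const_mul _))
      intro x
      have h1 := hφ01 x
      have h2 := hμ0 x
      have h3 := hμ1 x
      have h4 := hμ2 x
      have h5 : En x ≤ (ε ^ 2)⁻¹ * ∑ j ∈ Finset.range J, (c.D d j x) ^ 2 := by
        simp only [hEn]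
        exact mul_le_mul_of_nonneg_left (Finset.sum_le_sum fun j _ => sq_le_sq.mpr (hdcDle j x)) (by positivity)
      have h6 : 1 - φ x * μ x = (1 - φ x) + φ x * (1 - μ x) := by ring
      have h7 : φ x * (1 - μ x) ≤ 1 * (2 * En x) :=
        mul_le_mul h1.2 h4 (by linarith) zero_le_one
      rw [h6]
      linarith
    rw [P.add _ _ hφB' ((bd_energy c hdN.1 J).const_mul _), P.mul _ _ (bd_energy c hdN.1 J)] at e1
    have e2 : P.Λ (fun x => ∑ j ∈ Finset.range J, (c.D d j x) ^ 2) ≤ η := hQ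
    have e3 : (2 * (ε ^ 2)⁻¹) * P.Λ (fun x => ∑ j ∈ Finset.range J, (c.D d j x) ^ 2) ≤ (2 * (ε ^ 2)⁻¹) * η :=
      mul_le_mul_of_nonneg_left e2 (by positivity)
    have e4 : (2 * (ε ^ 2)⁻¹) * η = (a / 256 - P.Λ (fun x => 1 - φ x)) / 2 := by
      rw [hη]; field_simp; ring
    rw [e4] at e3
    linarith
  · intro x j
    have hpw : (1 / 2 : ℝ) ^ (N + 1) = 2 * ε := by rw [hε]; ring
    have hpw' : (1 / 2 : ℝ) ^ N = 4 * ε := by rw [hε]; ring
    have hε4 : ε ≤ 1 / 4 := by
      have : (1 / 2 : ℝ) ^ N ≤ 1 := pow_le_one₀ (by norm_num) (by norm_num)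
      linarith
    rw [hpw]
    have hDF := hD x j
    rw [hpw'] at hDF
    have hDf := hfD j x
    have hφx := hφ01 x
    have h4 := hdc4 j x
    have habs0 := abs_nonneg (c.D dc j x)
    have hDF' : |c.D (fun x => F x + s * f x) j x| ≤ |c.D F j x| + |c.D f j x| := by
      rw [c.D_add hF.1 (hfN.1.const_mul s), c.D_const_mul hfN.1]
      refine (abs_add_le _ _).trans ?_
      rw [abs_mul, hsabs, one_mul]
    refine hDF'.trans ?_
    have hJle : (if j < J then (4 : ℝ) else 0) ≤ if j < max J Jd then 4 else 0 := by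
      by_cases h : j < J
      · rw [if_pos h, if_pos (lt_of_lt_of_le h (le_max_left _ _))]
      · rw [if_neg h]; split_ifs <;> norm_num
    by_cases h0 : φ x = 0
    · have h1 : φ x * μ x = 0 := by rw [h0, zero_mul]
      rw [if_pos h0] at hDF
      rw [if_pos h1]
      rw [h0, zero_mul, add_zero] at hDf
      linarith
    · rw [if_neg h0] at hDF
      by_cases h1 : φ x * μ x = 0
      · rw [if_pos h1]
        have : φ x * |c.D dc j x| ≤ 4 := by nlinarith
        linarith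
      · rw [if_neg h1]
        rcases lt_or_ge j J with hj | hj
        · -- small derivative
          have hμx : μ x ≠ 0 := fun h => h1 (by rw [h, mul_zero])
          have hEx : En x < 1 := by
            by_contra hge
            push Not at hge
            apply hμx
            simp only [hμ]
            rw [max_eq_right (by linarith)]
            norm_num
          have h5 : (c.D dc j x) ^ 2 ≤ ∑ j ∈ Finset.range J, (c.D dc j x) ^ 2 :=
            Finset.single_le_sum (f := fun j => (c.D dc j x) ^ 2) (fun _ _ => sq_nonneg _) (Finset.mem_range.mpr hj)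
          have h6 : ∑ j ∈ Finset.range J, (c.D dc j x) ^ 2 < ε ^ 2 := by
            have : En x * ε ^ 2 = ∑ j ∈ Finset.range J, (c.D dc j x) ^ 2 := by
              simp only [hEn]; field_simp
            have h7 : 0 < ε ^ 2 := by positivity
            nlinarith
          have h7 : |c.D dc j x| ≤ ε := abs_le_of_sq_le_sq (by linarith) hε0.le
          have h8 : φ x * |c.D dc j x| ≤ ε := by nlinarith
          rw [if_pos hj] at hDF
          rw [if_pos (lt_of_lt_of_le hj (le_max_left _ _))]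
          linarith
        · have hF0 : c.D F j x = 0 := hFJ.D_eq_zero hF.1 hj x
          rw [hF0, abs_zero]
          rcases lt_or_ge j (max J Jd) with hj' | hj'
          · rw [if_pos hj']
            have : φ x * |c.D dc j x| ≤ 4 := by nlinarith
            linarith
          · have hf0 : c.D f j x = 0 := by
              simp only [hf]
              rw [c.D_mul hdcN.1.1 hφd, hφJ.D_eq_zero hφd hj x,
                hdcJ.D_eq_zero hdcN.1.1 ((le_max_right _ _).trans hj') x]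
              ring
            rw [hf0, abs_zero, if_neg (not_lt.mpr hj')]
            linarith
  · have hdisj : Disjoint T (Finset.Ico m m') := by
      rw [Finset.disjoint_left]
      intro k hk hk'
      have e1 := hT k hk
      have e2 := (Finset.mem_Ico.mp hk').1
      omega
    rw [Finset.sum_union hdisj]
    have hlin : ∀ k, S.b k (fun x => F x + s * f x) = S.b k F + s * S.b k f := fun k => by
      rw [← smul_eq_mul s, ← map_smul, ← map_add]; rfl
    have e1 : ∑ k ∈ T, (if k ∈ T then σ k else τ) * S.b k (fun x => F x + s * f x) =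
        ∑ k ∈ T, σ k * S.b k F + s * ∑ k ∈ T, σ k * S.b k f := by
      rw [Finset.mul_sum, ← Finset.sum_add_distrib]
      refine Finset.sum_congr rfl fun k hk => ?_
      rw [if_pos hk, hlin]; ring
    have e2 : ∑ k ∈ Finset.Ico m m', (if k ∈ T then σ k else τ) * S.b k (fun x => F x + s * f x) =
        τ * ∑ k ∈ Finset.Ico m m', S.b k F + s * τ * v := by
      rw [hv, Finset.mul_sum, Finset.mul_sum, ← Finset.sum_add_distrib]
      refine Finset.sum_congr rfl fun k hk => ?_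
      have : k ∉ T := fun h' => Finset.disjoint_left.mp hdisj h' hk
      rw [if_neg this, hlin]; ring
    rw [e1, e2]
    push_cast
    linarith

theorem contradiction (S : Sys W) (c : Coord W) {a K : ℝ} (ha : 0 < a)
    (hne : ∀ n, (Good S c a K n).Nonempty) : False := by
  obtain ⟨P⟩ := exists_dom S
  have hSt : ∀ N, St S c P a N := by
    intro N
    induction N with
    | zero =>
      refine ⟨fun _ => 0, fun _ => 1, ∅, fun _ => 0, 0, 0, by simp, by simp, N1.const 0, Coord.Cyl.const c _ _,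
        N1.const 1, Coord.Cyl.const c _ _, fun x => ⟨zero_le_one, le_rfl⟩, ?_, ?_, by simp⟩
      · have e1 := P.mul 0 (fun _ => 1) (Bd.const 1)
        have e2 : (fun _ : W => (1 : ℝ) - 1) = fun _ => 0 * 1 := by funext; ring
        rw [e2, e1]
        linarith
      · intro x j
        have : c.D (fun _ => (0 : ℝ)) j x = 0 := by
          unfold Coord.D; simp
        rw [this]
        simp
    | succ N ih => exact step S c P ha hne N ih
  obtain ⟨N, hN⟩ := exists_nat_gt (S.B * 9 / (a / 16))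
  obtain ⟨F, φ, T, σ, J, m, hT, hσ, hF, hFJ, hφ, hφJ, hφ01, hφΛ, hD, hsum⟩ := hSt N
  have h9 : Lip 9 F := by
    refine lip_of_fderiv hF.1 fun x => c.norm_fderiv_le F x fun j => ?_
    have h1 := hD x j
    have h2 : (0 : ℝ) < (1 / 2) ^ N := by positivity
    have h3 : (if j < J then (4 : ℝ) else 0) ≤ 4 := by split_ifs <;> norm_num
    have h4 : (if φ x = 0 then (4 : ℝ) else 0) ≤ 4 := by split_ifs <;> norm_num
    linarith
  have e1 := S.upper T 9 F (by norm_num) h9
  have e2 : ∑ k ∈ T, σ k * S.b k F ≤ ∑ k ∈ T, |S.b k F| := by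
    refine Finset.sum_le_sum fun k _ => ?_
    calc σ k * S.b k F ≤ |σ k * S.b k F| := le_abs_self _
      _ = |σ k| * |S.b k F| := abs_mul _ _
      _ ≤ 1 * |S.b k F| := mul_le_mul_of_nonneg_right (hσ k) (abs_nonneg _)
      _ = |S.b k F| := one_mul _
  rw [div_lt_iff₀ (by positivity)] at hN
  linarith

end

end Pool.Agent.Helper81.FreeL1
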